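import Pool.Agent.R892.P5.Defs
import Pool.Agent.R892.Ord.Mem

/-!
# Subgraph isomorphism on graphs without a fixed subgraph: the problem is in NP
-/

set_option autoImplicit false
set_option linter.unusedSectionVars false

namespace Pool.Agent.NPC.R892

open Pool.Agent.R892 Pool.Agent.R892.P5 Pool.Agent.NPC.R671 SimpleGraph

/-- All lists of length `k` of numbers below `n`. -/
def tuples : ℕ → ℕ → List (List ℕ)
  | 0, _ => [[]]
  | k + 1, n => (List.range n).flatMap fun a => (tuples k n).map fun t => a :: t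

theorem mem_tuples : ∀ (k n : ℕ) (t : List ℕ), t ∈ tuples k n ↔ t.length = k ∧ ∀ a ∈ t, a < n
  | 0, n, t => by
    simp only [tuples, List.mem_singleton, List.length_eq_zero_iff]
    constructor
    · rintro rfl
      exact ⟨rfl, by simp⟩
    · exact fun h => h.1
  | k + 1, n, t => by
    simp only [tuples, List.mem_flatMap, List.mem_map, List.mem_range]
    constructor
    · rintro ⟨a, ha, s, hs, rfl⟩
      obtain ⟨h1, h2⟩ := (mem_tuples k n s).1 hs
      refine ⟨by simp [h1], ?_⟩
      intro b hb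
      rcases List.mem_cons.1 hb with rfl | hb
      · exact ha
      · exact h2 b hb
    · rintro ⟨h1, h2⟩
      rcases t with _ | ⟨a, s⟩
      · simp at h1
      · exact ⟨a, h2 a (List.mem_cons_self ..), s, (mem_tuples k n s).2
          ⟨by simpa using h1, fun b hb => h2 b (List.mem_cons_of_mem _ hb)⟩, rfl⟩

/-- The map of a list is a copy of the graph with pairs of vertices `D` (distinct) and `E` (joined). -/
def isCopyB (D E : List (ℕ × ℕ)) (M : List (List Bool)) (t : List ℕ) : Bool :=
  (D.all fun p => !decide (t.getD p.1 0 = t.getD p.2 0)) &&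
    E.all fun p => ent M (t.getD p.1 0) (t.getD p.2 0)

/-- The graph of the matrix does not contain the fixed graph. -/
def freeB (k : ℕ) (D E : List (ℕ × ℕ)) (M : List (List Bool)) : Bool :=
  (tuples k M.length).all fun t => !isCopyB D E M t

/-- The pairs of distinct vertices. -/
noncomputable def DF (k : ℕ) : List (ℕ × ℕ) :=
  ((Finset.univ : Finset (Fin k × Fin k)).filter fun p => p.1 ≠ p.2).toList.map
    fun p => (p.1.1, p.2.1)

open Classical in
/-- The edges. -/
noncomputable def EF {k : ℕ} (F : SimpleGraph (Fin k)) : List (ℕ × ℕ) :=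
  ((Finset.univ : Finset (Fin k × Fin k)).filter fun p => F.Adj p.1 p.2).toList.map
    fun p => (p.1.1, p.2.1)

theorem mem_DF {k : ℕ} {q : ℕ × ℕ} : q ∈ DF k ↔ ∃ i j : Fin k, i ≠ j ∧ (i.1, j.1) = q := by
  unfold DF
  simp only [List.mem_map, Finset.mem_toList, Finset.mem_filter, Finset.mem_univ, true_and]
  constructor
  · rintro ⟨p, h, rfl⟩
    exact ⟨p.1, p.2, h, rfl⟩
  · rintro ⟨i, j, h, rfl⟩
    exact ⟨(i, j), h, rfl⟩

theorem mem_EF {k : ℕ} {F : SimpleGraph (Fin k)} {q : ℕ × ℕ} :
    q ∈ EF F ↔ ∃ i j : Fin k, F.Adj i j ∧ (i.1, j.1) = q := by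
  unfold EF
  simp only [List.mem_map, Finset.mem_toList, Finset.mem_filter, Finset.mem_univ, true_and]
  constructor
  · rintro ⟨p, h, rfl⟩
    exact ⟨p.1, p.2, h, rfl⟩
  · rintro ⟨i, j, h, rfl⟩
    exact ⟨(i, j), h, rfl⟩

theorem freeB_iff {k : ℕ} (F : SimpleGraph (Fin k)) {n : ℕ} (G : SimpleGraph (Fin n)) :
    freeB k (DF k) (EF F) (R671.adjMatrix G) = true ↔ F.Free G := by
  have key : (∃ t ∈ tuples k n, isCopyB (DF k) (EF F) (R671.adjMatrix G) t = true) ↔ F ⊑ G := by
    constructor
    · rintro ⟨t, ht, hc⟩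
      obtain ⟨h1, h2⟩ := (mem_tuples k n t).1 ht
      unfold isCopyB at hc
      simp only [Bool.and_eq_true, List.all_eq_true, Bool.not_eq_true', decide_eq_false_iff_not]
        at hc
      obtain ⟨h3, h4⟩ := hc
      have hlt : ∀ i : Fin k, t.getD i.1 0 < n := fun i => by
        rw [List.getD_eq_getElem _ _ (by omega)]
        exact h2 _ (List.getElem_mem _)
      refine ⟨⟨⟨fun i => ⟨t.getD i.1 0, hlt i⟩, ?_⟩, ?_⟩⟩
      · intro i j hij
        exact (ent_adjMatrix G ⟨t.getD i.1 0, hlt i⟩ ⟨t.getD j.1 0, hlt j⟩).1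
          (h4 (i.1, j.1) (mem_EF.2 ⟨i, j, hij, rfl⟩))
      · intro i j hij
        by_contra hne
        exact h3 (i.1, j.1) (mem_DF.2 ⟨i, j, hne, rfl⟩) (congrArg Fin.val hij)
    · rintro ⟨f⟩
      have hget : ∀ i : Fin k, (List.ofFn fun i => (f i).1).getD i.1 0 = (f i).1 := by
        intro i
        rw [List.getD_eq_getElem _ _ (by simp)]
        simp
      refine ⟨List.ofFn fun i => (f i).1, (mem_tuples k n _).2 ⟨by simp, ?_⟩, ?_⟩
      · intro a ha
        obtain ⟨i, rfl⟩ := List.mem_ofFn.1 ha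
        exact (f i).2
      · unfold isCopyB
        simp only [Bool.and_eq_true, List.all_eq_true, Bool.not_eq_true', decide_eq_false_iff_not]
        refine ⟨fun q hq => ?_, fun q hq => ?_⟩
        · obtain ⟨i, j, hij, rfl⟩ := mem_DF.1 hq
          simp only [hget]
          exact fun h => hij (f.injective (Fin.ext h))
        · obtain ⟨i, j, hij, rfl⟩ := mem_EF.1 hq
          simp only [hget]
          exact (ent_adjMatrix G (f i) (f j)).2 (f.toHom.map_adj hij)
  unfold freeB SimpleGraph.Free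
  rw [← key, length_adjMatrix]
  simp only [List.all_eq_true, Bool.not_eq_true', not_exists, not_and, Bool.not_eq_true]

/-- The verifier. -/
def chkS (k : ℕ) (D E : List (ℕ × ℕ))
    (p : (List (List Bool) × List (List Bool)) × List ℕ) : Bool :=
  isAdjB p.1.1 && (isAdjB p.1.2 && (freeB k D E p.1.1 && (freeB k D E p.1.2 &&
  ((List.range p.1.2.length).all (fun i => decide (p.2.getD i 0 < p.1.1.length)) &&
  (List.range p.1.2.length).all fun i => (List.range p.1.2.length).all fun j =>
    (decide (i = j) || !decide (p.2.getD i 0 = p.2.getD j 0)) &&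
    (!ent p.1.2 i j || ent p.1.1 (p.2.getD i 0) (p.2.getD j 0))))))

theorem chkS_iff (k : ℕ) (D E : List (ℕ × ℕ)) (I : List (List Bool) × List (List Bool))
    (w : List ℕ) : chkS k D E (I, w) = true ↔ IsAdj I.1 ∧ IsAdj I.2 ∧ freeB k D E I.1 = true ∧
      freeB k D E I.2 = true ∧ (∀ i < I.2.length, w.getD i 0 < I.1.length) ∧
      ∀ i < I.2.length, ∀ j < I.2.length, (i = j ∨ w.getD i 0 ≠ w.getD j 0) ∧
        (ent I.2 i j = false ∨ ent I.1 (w.getD i 0) (w.getD j 0) = true) := by
  unfold chkS
  simp only [Bool.and_eq_true, List.all_eq_true, decide_eq_true_eq, List.mem_range, isAdjB_iff,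
    Bool.or_eq_true, Bool.not_eq_true', decide_eq_false_iff_not, ne_eq]

theorem sub_iff {k : ℕ} (F : SimpleGraph (Fin k)) (I : List (List Bool) × List (List Bool)) :
    SubIsoOn F I ↔ ∃ w : List ℕ, w.length = I.2.length ∧ (∀ a ∈ w, a < I.1.length) ∧
      chkS k (DF k) (EF F) (I, w) = true := by
  constructor
  · rintro ⟨n, m, G, H, h1, h2, h3, h4, ⟨f⟩⟩
    refine ⟨List.ofFn fun i => (f i).1, ?_, ?_, ?_⟩
    · rw [← h2, length_adjMatrix]; simp
    · intro a ha
      obtain ⟨i, rfl⟩ := List.mem_ofFn.1 ha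
      rw [← h1, length_adjMatrix]
      exact (f i).2
    · have hget : ∀ i (hi : i < m), (List.ofFn fun i => (f i).1).getD i 0 = (f ⟨i, hi⟩).1 := by
        intro i hi
        rw [List.getD_eq_getElem _ _ (by simpa using hi)]
        simp
      rw [chkS_iff, ← h1, ← h2, length_adjMatrix, length_adjMatrix]
      refine ⟨isAdj_adjMatrix _, isAdj_adjMatrix _, (freeB_iff F G).2 h3, (freeB_iff F H).2 h4,
        fun i hi => ?_, fun i hi j hj => ⟨?_, ?_⟩⟩
      · rw [hget i hi]
        exact (f _).2
      · rw [hget i hi, hget j hj]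
        by_cases hij : i = j
        · exact Or.inl hij
        · right
          intro h
          have := f.injective (Fin.ext h)
          exact hij (congrArg Fin.val this)
      · rw [hget i hi, hget j hj]
        by_cases hij : H.Adj ⟨i, hi⟩ ⟨j, hj⟩
        · exact Or.inr ((ent_adjMatrix G _ _).2 (f.toHom.map_adj hij))
        · exact Or.inl (Bool.eq_false_iff.2 fun h =>
            hij ((ent_adjMatrix H ⟨i, hi⟩ ⟨j, hj⟩).1 h))
  · rintro ⟨w, -, -, hw⟩
    rw [chkS_iff] at hw
    obtain ⟨h1, h2, h3, h4, h5, h6⟩ := hw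
    refine ⟨I.1.length, I.2.length, matG I.1 _ h1 rfl, matG I.2 _ h2 rfl, adjMatrix_matG _ _ _ _,
      adjMatrix_matG _ _ _ _, ?_, ?_, ?_⟩
    · rw [← freeB_iff, adjMatrix_matG]; exact h3
    · rw [← freeB_iff, adjMatrix_matG]; exact h4
    · refine ⟨⟨⟨fun i => ⟨w.getD i.1 0, h5 i.1 i.2⟩, ?_⟩, ?_⟩⟩
      · intro i j hij
        have hij' : ent I.2 i j = true := hij
        rcases (h6 i.1 i.2 j.1 j.2).2 with h | h
        · rw [h] at hij'
          exact absurd hij' (by simp)
        · exact h
      · intro i j hij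
        rcases (h6 i.1 i.2 j.1 j.2).1 with h | h
        · exact Fin.ext h
        · exact absurd (congrArg Fin.val hij) h

theorem poly_tuples : ∀ (k : ℕ) {α : Type} [TEnc α] {n : α → ℕ}, UPoly n →
    Poly (fun a => tuples k (n a))
  | 0, _, _, _, _ => Poly.const _
  | k + 1, α, _, n, hn => by
    have h1 : UPoly (fun p : α × ℕ => n p.1) := hn.comp (Poly.fst Poly.id)
    have h2 := poly_tuples k h1
    refine Poly.flatMap (F := fun a b => (tuples k (n a)).map fun t => b :: t)
      (Poly.range_uPoly hn) ?_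
    exact Poly.map (l := fun p : α × ℕ => tuples k (n p.1))
      (F := fun (p : α × ℕ) t => p.2 :: t) h2 (by fun_prop)

theorem poly_freeB (k : ℕ) (D E : List (ℕ × ℕ)) : Poly (freeB k D E) := by
  unfold freeB
  refine Poly.all (p := fun M t => !isCopyB D E M t) (poly_tuples k (UPoly.length Poly.id)) ?_
  refine Poly.not ?_
  unfold isCopyB
  refine Poly.and ?_ ?_
  · refine Poly.all (p := fun (x : List (List Bool) × List ℕ) (p : ℕ × ℕ) =>
      !decide (x.2.getD p.1 0 = x.2.getD p.2 0)) (Poly.const _) ?_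
    fun_prop
  · refine Poly.all (p := fun (x : List (List Bool) × List ℕ) (p : ℕ × ℕ) =>
      ent x.1 (x.2.getD p.1 0) (x.2.getD p.2 0)) (Poly.const _) ?_
    exact poly_ent (by fun_prop) (by fun_prop) (by fun_prop)

theorem poly_chkS (k : ℕ) (D E : List (ℕ × ℕ)) : Poly (chkS k D E) := by
  unfold chkS
  have h : ∀ {α : Type} [TEnc α] {f : α → List (List Bool)}, Poly f →
      Poly (fun a => List.range (f a).length) := fun hf => Poly.range_length hf
  refine Poly.and (poly_isAdjB.comp (Poly.fst (Poly.fst Poly.id))) (Poly.and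
    (poly_isAdjB.comp (Poly.snd (Poly.fst Poly.id))) (Poly.and
      ((poly_freeB k D E).comp (Poly.fst (Poly.fst Poly.id))) (Poly.and
      ((poly_freeB k D E).comp (Poly.snd (Poly.fst Poly.id))) (Poly.and ?_ ?_))))
  · exact Poly.all (h (Poly.snd (Poly.fst Poly.id))) (by fun_prop)
  · refine Poly.all (h (Poly.snd (Poly.fst Poly.id))) ?_
    refine Poly.all (h (Poly.snd (Poly.fst (Poly.fst Poly.id)))) ?_
    refine Poly.and (by fun_prop) (Poly.or (Poly.not ?_) ?_)
    · exact poly_ent (by fun_prop) (by fun_prop) (by fun_prop)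
    · exact poly_ent (by fun_prop) (by fun_prop) (by fun_prop)

theorem inNPP_sub {k : ℕ} (F : SimpleGraph (Fin k)) : InNPP (SubIsoOn F) := by
  refine inNPP_of (β := List ℕ) (poly_chkS k (DF k) (EF F))
    (Polynomial.X * (Polynomial.C 4 * Polynomial.X + Polynomial.C 2) + Polynomial.C 1) ?_
  intro I
  rw [sub_iff]
  constructor
  · rintro ⟨w, h1, h2, h3⟩
    refine ⟨w, ?_, h3⟩
    have h6 : I.1.length ≤ sz I ∧ I.2.length ≤ sz I := by
      have e1 := length_lt_sz I.1
      have e2 := length_lt_sz I.2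
      rcases I with ⟨a, b⟩
      simp only [sz_pair] at *
      omega
    have h7 : ∀ a ∈ w, sz a ≤ 4 * sz I + 1 := by
      intro a ha
      have e3 := sz_nat_le a
      have e4 : Nat.size a ≤ a := by
        rw [Nat.size_le]
        exact Nat.lt_two_pow_self
      have e5 := h2 a ha
      omega
    have h8 := sz_le_length_mul _ _ h7
    rw [h1] at h8
    simp only [Polynomial.eval_add, Polynomial.eval_mul, Polynomial.eval_X, Polynomial.eval_C]
    refine h8.trans ?_
    gcongr
    exact h6.2
  · rintro ⟨w, -, hw⟩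
    have hw' := hw
    rw [chkS_iff] at hw'
    obtain ⟨h1, h2, h3, h4, h5, h6⟩ := hw'
    refine ⟨(List.range I.2.length).map fun i => w.getD i 0, by simp, ?_, ?_⟩
    · intro a ha
      obtain ⟨i, hi, rfl⟩ := List.mem_map.1 ha
      exact h5 i (List.mem_range.1 hi)
    · have hg : ∀ i < I.2.length, ((List.range I.2.length).map fun i => w.getD i 0).getD i 0 =
          w.getD i 0 := by
        intro i hi
        rw [List.getD_eq_getElem _ _ (by simpa using hi)]
        simp
      rw [chkS_iff]
      refine ⟨h1, h2, h3, h4, fun i hi => ?_, fun i hi j hj => ?_⟩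
      · rw [hg i hi]; exact h5 i hi
      · rw [hg i hi, hg j hj]; exact h6 i hi j hj

theorem sub_congr {W W' : Type} {F : SimpleGraph W} {F' : SimpleGraph W'} (e : F ≃g F') :
    SubIsoOn F = SubIsoOn F' := by
  funext I
  unfold SubIsoOn SimpleGraph.Free
  simp only [isContained_congr_left e]

theorem inNPP_subF {W : Type} [Finite W] (F : SimpleGraph W) : InNPP (SubIsoOn F) := by
  obtain ⟨k, ⟨e⟩⟩ := Finite.exists_equiv_fin W
  have e' : F ≃g F.map e.toEmbedding := SimpleGraph.Iso.map e F
  rw [sub_congr e']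
  exact inNPP_sub _

end Pool.Agent.NPC.R892
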