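import Mathlib
import Pool.Agent.H671R2.ZDefs

/-!
# Subgraph isomorphism on graphs without a fixed subgraph: the problem
-/

set_option autoImplicit false

namespace Pool.Agent.R892.P5

open Pool.Agent.NPC Pool.Agent.NPC.R671 SimpleGraph

/-- SUBGRAPH ISOMORPHISM on `F`-subgraph-free graphs. The input consists of the adjacency matrices
of two graphs, the host `G` and the pattern `H`; both are `F`-subgraph-free, and the question is
whether `G` contains `H` as a subgraph. -/
def SubIsoOn {W : Type} (F : SimpleGraph W) (I : List (List Bool) × List (List Bool)) : Prop :=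
  ∃ (n m : ℕ) (G : SimpleGraph (Fin n)) (H : SimpleGraph (Fin m)),
    R671.adjMatrix G = I.1 ∧ R671.adjMatrix H = I.2 ∧ F.Free G ∧ F.Free H ∧ H ⊑ G

end Pool.Agent.R892.P5
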