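import Pool.Agent.R892.P5.Numeric
import Pool.Agent.H671R2.GraphEnc

/-!
# The two graphs as lists of labels
-/

set_option autoImplicit false
set_option linter.unusedSectionVars false

namespace Pool.Agent.R892.P5

open Pool.Agent.NPC Pool.Agent.NPC.R671 SimpleGraph

/-- Labels: kind, group, option, side, number of the leaf. -/
abbrev Lab : Type := ℕ × ℕ × ℕ × Bool × ℕ

/-- Adjacency of labels. -/
def ad (x y : Lab) : Bool :=
  (decide (x.2.2.2.2 = 0) && (decide (y.2.2.2.2 = 0) && (decide (x.1 = 0) && (decide (y.1 = 0) &&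
    (decide (x.2.1 = y.2.1) && (decide (x.2.2.1 = y.2.2.1) &&
      !decide (x.2.2.2.1 = y.2.2.2.1))))))) ||
  (decide (x.1 = y.1) && (decide (x.2.1 = y.2.1) && (decide (x.2.2.1 = y.2.2.1) &&
    (decide (x.2.2.2.1 = y.2.2.2.1) &&
      ((decide (x.2.2.2.2 = 0) && !decide (y.2.2.2.2 = 0)) ||
      (!decide (x.2.2.2.2 = 0) && decide (y.2.2.2.2 = 0)))))))

theorem ad_iff (x y : Lab) : ad x y = true ↔
    (x.2.2.2.2 = 0 ∧ y.2.2.2.2 = 0 ∧ x.1 = 0 ∧ y.1 = 0 ∧ x.2.1 = y.2.1 ∧ x.2.2.1 = y.2.2.1 ∧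
      x.2.2.2.1 ≠ y.2.2.2.1) ∨
    (x.1 = y.1 ∧ x.2.1 = y.2.1 ∧ x.2.2.1 = y.2.2.1 ∧ x.2.2.2.1 = y.2.2.2.1 ∧
      ((x.2.2.2.2 = 0 ∧ y.2.2.2.2 ≠ 0) ∨ (x.2.2.2.2 ≠ 0 ∧ y.2.2.2.2 = 0))) := by
  unfold ad
  simp only [Bool.or_eq_true, Bool.and_eq_true, decide_eq_true_eq, Bool.not_eq_true',
    decide_eq_false_iff_not, ne_eq]

theorem ad_symm (x y : Lab) : ad x y = ad y x := by
  rw [Bool.eq_iff_iff, ad_iff, ad_iff]
  constructor
  · rintro (⟨h1, h2, h3, h4, h5, h6, h7⟩ | ⟨h1, h2, h3, h4, h5⟩)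
    · exact Or.inl ⟨h2, h1, h4, h3, h5.symm, h6.symm, Ne.symm h7⟩
    · exact Or.inr ⟨h1.symm, h2.symm, h3.symm, h4.symm, h5.symm.imp And.symm And.symm⟩
  · rintro (⟨h1, h2, h3, h4, h5, h6, h7⟩ | ⟨h1, h2, h3, h4, h5⟩)
    · exact Or.inl ⟨h2, h1, h4, h3, h5.symm, h6.symm, Ne.symm h7⟩
    · exact Or.inr ⟨h1.symm, h2.symm, h3.symm, h4.symm, h5.symm.imp And.symm And.symm⟩

theorem ad_irrefl (x : Lab) : ad x x = false := by
  rw [← Bool.not_eq_true, ad_iff]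
  rintro (⟨-, -, -, -, -, -, h7⟩ | ⟨-, -, -, -, h5 | h5⟩)
  · exact h7 rfl
  · exact h5.2 h5.1
  · exact h5.1 h5.2

/-- The numbers of an instance. -/
def nA (T : List (ℕ × ℕ × ℕ)) (g : ℕ) : ℕ := (T.getD g (0, 0, 0)).1
/-- The numbers of an instance. -/
def nB (T : List (ℕ × ℕ × ℕ)) (g : ℕ) : ℕ := (T.getD g (0, 0, 0)).2.1
/-- The numbers of an instance. -/
def nC (T : List (ℕ × ℕ × ℕ)) (g : ℕ) : ℕ := (T.getD g (0, 0, 0)).2.2

/-- Leaves of the host. -/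
def lh (T : List (ℕ × ℕ × ℕ)) (U g a : ℕ) (s : Bool) : ℕ :=
  bif s then 2 * (nC T g + 4 * (U + 1)) - (a + 1) else a + 1

/-- Leaves of the double stars of the pattern. -/
def lp (T : List (ℕ × ℕ × ℕ)) (U g a : ℕ) (s : Bool) : ℕ :=
  bif s then 2 * (nC T g + 4 * (U + 1)) - (a + 2) else a + 1

/-- Leaves of the stars of the pattern. -/
def lq (T : List (ℕ × ℕ × ℕ)) (U j : ℕ) (s : Bool) : ℕ :=
  bif s then 2 * (nB T j + 3 * (U + 1)) else 2 * (nA T j + (U + 1))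

/-- The truth values. -/
def bl : List Bool := [false, true]

/-- The vertices of the host. -/
def vH (T : List (ℕ × ℕ × ℕ)) (U : ℕ) : List Lab :=
  (List.range T.length).flatMap fun g => (List.range (4 * U + 4)).flatMap fun a =>
    bl.flatMap fun s => (List.range (lh T U g a s + 1)).map fun i => (0, g, a, s, i)

/-- The vertices of the pattern. -/
def vP (T : List (ℕ × ℕ × ℕ)) (U : ℕ) : List Lab :=
  ((List.range T.length).flatMap fun g => (List.range (4 * U + 3)).flatMap fun a =>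
    bl.flatMap fun s => (List.range (lp T U g a s + 1)).map fun i => (0, g, a, s, i)) ++
  ((List.range T.length).flatMap fun j =>
    bl.flatMap fun s => (List.range (lq T U j s + 1)).map fun i => (1, j, 0, s, i))

theorem mem_bl (a : Bool) : a ∈ bl := by cases a <;> decide

theorem nodup_flatMap' {A B : Type} {l : List A} {f : A → List B} (hl : l.Nodup)
    (hf : ∀ x ∈ l, (f x).Nodup) (p : B → A) (hp : ∀ x ∈ l, ∀ z ∈ f x, p z = x) :
    (l.flatMap f).Nodup := by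
  rw [List.nodup_flatMap]
  refine ⟨hf, ?_⟩
  rw [List.pairwise_iff_getElem]
  intro i j hi hj hij z h1 h2
  have e1 := hp _ (List.getElem_mem hi) z h1
  have e2 := hp _ (List.getElem_mem hj) z h2
  have := (List.Nodup.getElem_inj_iff hl).1 (e1.symm.trans e2)
  omega

theorem nodup_inner (κ g a : ℕ) (f : Bool → ℕ) :
    (bl.flatMap fun s => (List.range (f s)).map fun i => ((κ, g, a, s, i) : Lab)).Nodup := by
  refine nodup_flatMap' (by decide) (fun s _ => ?_) (fun z => z.2.2.2.1) ?_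
  · exact List.Nodup.map (fun i j h => by simpa using h) List.nodup_range
  · intro s _ z hz
    obtain ⟨i, -, rfl⟩ := List.mem_map.1 hz
    rfl

theorem mem_inner {κ g a : ℕ} {f : Bool → ℕ} {z : Lab} :
    z ∈ (bl.flatMap fun s => (List.range (f s)).map fun i => ((κ, g, a, s, i) : Lab)) ↔
      z.1 = κ ∧ z.2.1 = g ∧ z.2.2.1 = a ∧ z.2.2.2.2 < f z.2.2.2.1 := by
  simp only [List.mem_flatMap, List.mem_map, List.mem_range]
  constructor
  · rintro ⟨s, -, i, hi, rfl⟩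
    exact ⟨rfl, rfl, rfl, hi⟩
  · rintro ⟨rfl, rfl, rfl, h⟩
    exact ⟨z.2.2.2.1, mem_bl _, z.2.2.2.2, h, rfl⟩

theorem nodup_two (κ n m : ℕ) (f : ℕ → ℕ → Bool → ℕ) :
    ((List.range n).flatMap fun g => (List.range m).flatMap fun a =>
      bl.flatMap fun s => (List.range (f g a s)).map fun i => ((κ, g, a, s, i) : Lab)).Nodup := by
  refine nodup_flatMap' List.nodup_range (fun g _ => ?_) (fun z => z.2.1) ?_
  · refine nodup_flatMap' List.nodup_range (fun a _ => nodup_inner κ g a _) (fun z => z.2.2.1) ?_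
    intro a _ z hz
    exact (mem_inner.1 hz).2.2.1
  · intro g _ z hz
    obtain ⟨a, -, hz⟩ := List.mem_flatMap.1 hz
    exact (mem_inner.1 hz).2.1

theorem mem_two {κ n m : ℕ} {f : ℕ → ℕ → Bool → ℕ} {z : Lab} :
    z ∈ ((List.range n).flatMap fun g => (List.range m).flatMap fun a =>
      bl.flatMap fun s => (List.range (f g a s)).map fun i => ((κ, g, a, s, i) : Lab)) ↔
    z.1 = κ ∧ z.2.1 < n ∧ z.2.2.1 < m ∧ z.2.2.2.2 < f z.2.1 z.2.2.1 z.2.2.2.1 := by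
  constructor
  · intro h
    obtain ⟨g, hg, h⟩ := List.mem_flatMap.1 h
    obtain ⟨a, ha, h⟩ := List.mem_flatMap.1 h
    obtain ⟨h1, rfl, rfl, h4⟩ := mem_inner.1 h
    exact ⟨h1, List.mem_range.1 hg, List.mem_range.1 ha, h4⟩
  · rintro ⟨h1, h2, h3, h4⟩
    exact List.mem_flatMap.2 ⟨z.2.1, List.mem_range.2 h2, List.mem_flatMap.2
      ⟨z.2.2.1, List.mem_range.2 h3, mem_inner.2 ⟨h1, rfl, rfl, h4⟩⟩⟩

theorem nodup_vH (T : List (ℕ × ℕ × ℕ)) (U : ℕ) : (vH T U).Nodup := nodup_two _ _ _ _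

theorem mem_one {n : ℕ} {f : ℕ → Bool → ℕ} {z : Lab} :
    z ∈ ((List.range n).flatMap fun j =>
      bl.flatMap fun s => (List.range (f j s)).map fun i => ((1, j, 0, s, i) : Lab)) ↔
    z.1 = 1 ∧ z.2.1 < n ∧ z.2.2.1 = 0 ∧ z.2.2.2.2 < f z.2.1 z.2.2.2.1 := by
  constructor
  · intro h
    obtain ⟨g, hg, h⟩ := List.mem_flatMap.1 h
    obtain ⟨h1, rfl, h3, h4⟩ := mem_inner.1 h
    exact ⟨h1, List.mem_range.1 hg, h3, h4⟩
  · rintro ⟨h1, h2, h3, h4⟩
    exact List.mem_flatMap.2 ⟨z.2.1, List.mem_range.2 h2, mem_inner.2 ⟨h1, rfl, h3, h4⟩⟩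

theorem nodup_vP (T : List (ℕ × ℕ × ℕ)) (U : ℕ) : (vP T U).Nodup := by
  refine (nodup_two _ _ _ _).append ?_ ?_
  · refine nodup_flatMap' List.nodup_range (fun j _ => nodup_inner 1 j 0 _) (fun z => z.2.1) ?_
    intro j _ z hz
    exact (mem_inner.1 hz).2.1
  · intro z h1 h2
    have e1 := (mem_two.1 h1).1
    have e2 := (mem_one.1 h2).1
    omega

/-- The host. -/
def gH (T : List (ℕ × ℕ × ℕ)) (U : ℕ) : SimpleGraph (Fin (vH T U).length) :=
  listGraph (vH T U) ad ad_symm ad_irrefl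

/-- The pattern. -/
def gP (T : List (ℕ × ℕ × ℕ)) (U : ℕ) : SimpleGraph (Fin (vP T U).length) :=
  listGraph (vP T U) ad ad_symm ad_irrefl

/-- The matrix of the host. -/
def mH (T : List (ℕ × ℕ × ℕ)) (U : ℕ) : List (List Bool) :=
  (vH T U).map fun u => (vH T U).map fun w => ad u w

/-- The matrix of the pattern. -/
def mP (T : List (ℕ × ℕ × ℕ)) (U : ℕ) : List (List Bool) :=
  (vP T U).map fun u => (vP T U).map fun w => ad u w

theorem adjMatrix_gH (T : List (ℕ × ℕ × ℕ)) (U : ℕ) : adjMatrix (gH T U) = mH T U :=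
  adjMatrix_listGraph _ _ _ _

theorem adjMatrix_gP (T : List (ℕ × ℕ × ℕ)) (U : ℕ) : adjMatrix (gP T U) = mP T U :=
  adjMatrix_listGraph _ _ _ _

section

variable (T : List (ℕ × ℕ × ℕ)) (U : ℕ)

/-- The label of a vertex of the host. -/
def labH (v : Vt (lH (n := T.length) (L := 4 * U + 3) (U + 1) fun g => nC T g)) : Lab :=
  (0, v.1.1.1.1, v.1.1.2.1.1, v.1.1.2.2, v.1.2)

/-- The label of a vertex of the pattern. -/
def labC : CP T.length (4 * U + 3) → ℕ × ℕ × ℕ × Bool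
  | .inl c => (0, c.1.1, c.2.1.1, c.2.2)
  | .inr c => (1, c.1.1, 0, c.2)

/-- The label of a vertex of the pattern. -/
def labP (v : Vt (lP (n := T.length) (L := 4 * U + 3) (U + 1) (fun g => nA T g)
    (fun g => nB T g) fun g => nC T g)) : Lab :=
  ((labC T U v.1.1).1, (labC T U v.1.1).2.1, (labC T U v.1.1).2.2.1, (labC T U v.1.1).2.2.2, v.1.2)

theorem labC_inj : Function.Injective (labC T U) := by
  rintro (⟨g, a, s⟩ | ⟨j, s⟩) (⟨g', a', s'⟩ | ⟨j', s'⟩) h <;>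
    simp only [labC, Prod.mk.injEq, true_and, zero_ne_one, one_ne_zero, false_and] at h
  · rw [Fin.ext h.1, Fin.ext h.2.1, h.2.2]
  · rw [Fin.ext h.1, h.2]

theorem labH_inj : Function.Injective (labH T U) := by
  rintro ⟨⟨⟨g, a, s⟩, i⟩, hi⟩ ⟨⟨⟨g', a', s'⟩, i'⟩, hi'⟩ h
  simp only [labH, Prod.mk.injEq, true_and] at h
  obtain ⟨h1, h2, rfl, rfl⟩ := h
  obtain rfl := Fin.ext h1
  obtain rfl := Fin.ext h2
  rfl

theorem labP_inj : Function.Injective (labP T U) := by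
  rintro ⟨⟨c, i⟩, hi⟩ ⟨⟨c', i'⟩, hi'⟩ h
  simp only [labP, Prod.mk.injEq] at h
  obtain ⟨h1, h2, h3, h4, rfl⟩ := h
  have : c = c' := labC_inj T U (Prod.ext h1 (Prod.ext h2 (Prod.ext h3 h4)))
  subst this
  rfl

theorem mem_vH (z : Lab) : z ∈ vH T U ↔ ∃ v, labH T U v = z := by
  constructor
  · intro h
    obtain ⟨h1, h2, h3, h4⟩ := mem_two.1 h
    refine ⟨⟨((⟨z.2.1, h2⟩, ⟨z.2.2.1, by omega⟩, z.2.2.2.1), z.2.2.2.2), Nat.lt_succ_iff.1 h4⟩, ?_⟩
    exact Prod.ext h1.symm rfl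
  · rintro ⟨⟨⟨⟨g, a, s⟩, i⟩, hi⟩, rfl⟩
    exact mem_two.2 ⟨rfl, g.2, a.2, Nat.lt_succ_iff.2 hi⟩

theorem mem_vP (z : Lab) : z ∈ vP T U ↔ ∃ v, labP T U v = z := by
  unfold vP
  rw [List.mem_append]
  constructor
  · rintro (h | h)
    · obtain ⟨h1, h2, h3, h4⟩ := mem_two.1 h
      refine ⟨⟨(.inl (⟨z.2.1, h2⟩, ⟨z.2.2.1, h3⟩, z.2.2.2.1), z.2.2.2.2),
        Nat.lt_succ_iff.1 h4⟩, ?_⟩
      exact Prod.ext h1.symm rfl
    · obtain ⟨h1, h2, h3, h4⟩ := mem_one.1 h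
      refine ⟨⟨(.inr (⟨z.2.1, h2⟩, z.2.2.2.1), z.2.2.2.2), Nat.lt_succ_iff.1 h4⟩, ?_⟩
      exact Prod.ext h1.symm (Prod.ext rfl (Prod.ext h3.symm rfl))
  · rintro ⟨⟨⟨c, i⟩, hi⟩, rfl⟩
    rcases c with ⟨g, a, s⟩ | ⟨j, s⟩
    · exact Or.inl (mem_two.2 ⟨rfl, g.2, a.2, Nat.lt_succ_iff.2 hi⟩)
    · exact Or.inr (mem_one.2 ⟨rfl, j.2, rfl, Nat.lt_succ_iff.2 hi⟩)

theorem iso_H : Nonempty (gH T U ≃g clg (lH (n := T.length) (L := 4 * U + 3) (U + 1)
    fun g => nC T g) EH EH_symm EH_irrefl) := by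
  obtain ⟨e, he⟩ := exists_equiv (vH T U) (nodup_vH T U) (labH T U) (labH_inj T U) (mem_vH T U)
  refine ⟨⟨e, ?_⟩⟩
  intro i j
  show (clg _ _ _ _).Adj (e i) (e j) ↔ ad (vH T U)[i] (vH T U)[j] = true
  rw [← he, ← he, ad_iff]
  generalize e i = u
  generalize e j = v
  obtain ⟨⟨⟨g, a, s⟩, i⟩, hi⟩ := u
  obtain ⟨⟨⟨g', a', s'⟩, i'⟩, hi'⟩ := v
  simp only [clg, labH, EH, Prod.mk.injEq, Fin.ext_iff]
  tauto

theorem iso_P : Nonempty (gP T U ≃g clg (lP (n := T.length) (L := 4 * U + 3) (U + 1)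
    (fun g => nA T g) (fun g => nB T g) fun g => nC T g) EP EP_symm EP_irrefl) := by
  obtain ⟨e, he⟩ := exists_equiv (vP T U) (nodup_vP T U) (labP T U) (labP_inj T U) (mem_vP T U)
  refine ⟨⟨e, ?_⟩⟩
  intro i j
  show (clg _ _ _ _).Adj (e i) (e j) ↔ ad (vP T U)[i] (vP T U)[j] = true
  rw [← he, ← he, ad_iff]
  generalize e i = u
  generalize e j = v
  obtain ⟨⟨c, i⟩, hi⟩ := u
  obtain ⟨⟨c', i'⟩, hi'⟩ := v
  rcases c with ⟨g, a, s⟩ | ⟨g, s⟩ <;> rcases c' with ⟨g', a', s'⟩ | ⟨g', s'⟩ <;>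
    simp only [clg, labP, labC, EP, Prod.mk.injEq, Fin.ext_iff, Sum.inl.injEq, Sum.inr.injEq,
      reduceCtorEq, zero_ne_one, one_ne_zero, false_and, and_false, true_and, or_self,
      false_or] <;> tauto

end

/-- Truncation of an instance. -/
def tr (I : List (ℕ × ℕ × ℕ) × List Unit) : List (ℕ × ℕ × ℕ) :=
  I.1.map fun t => (min t.1 I.2.length, min t.2.1 I.2.length, min t.2.2 I.2.length)

theorem tr_eq {I : List (ℕ × ℕ × ℕ) × List Unit} (h : Bd I) : tr I = I.1 := by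
  unfold tr
  conv_rhs => rw [← List.map_id I.1]
  refine List.map_congr_left fun t ht => ?_
  obtain ⟨h1, h2, h3⟩ := h t ht
  rw [min_eq_left h1, min_eq_left h2, min_eq_left h3]
  rfl

/-- The test for the sums. -/
def eqs (T : List (ℕ × ℕ × ℕ)) : Bool :=
  decide ((T.map fun t => t.1).sum + (T.map fun t => t.2.1).sum = (T.map fun t => t.2.2).sum)

/-- The reduction. -/
def red (I : List (ℕ × ℕ × ℕ) × List Unit) : List (List Bool) × List (List Bool) :=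
  bif eqs (tr I) then (mH (tr I) I.2.length, mP (tr I) I.2.length) else ([], [[false]])

theorem sum_getD (T : List (ℕ × ℕ × ℕ)) (f : ℕ × ℕ × ℕ → ℕ) :
    ∑ i : Fin T.length, f (T.getD i.1 (0, 0, 0)) = (T.map f).sum := by
  rw [← Fin.sum_univ_getElem (T.map f)]
  refine Fintype.sum_equiv (finCongr (by simp)) _ _ fun i => ?_
  simp

theorem eqs_of_N3 {T : List (ℕ × ℕ × ℕ)} (h : N3 T) : eqs T = true := by
  obtain ⟨σ, τ, hst⟩ := h
  unfold eqs
  rw [decide_eq_true_iff, ← sum_getD, ← sum_getD, ← sum_getD]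
  have h1 : ∑ i : Fin T.length, (T.getD i.1 (0, 0, 0)).1 =
      ∑ i : Fin T.length, (T.getD (σ i).1 (0, 0, 0)).1 :=
    (Equiv.sum_comp σ fun i : Fin T.length => (T.getD i.1 (0, 0, 0)).1).symm
  have h2 : ∑ i : Fin T.length, (T.getD i.1 (0, 0, 0)).2.1 =
      ∑ i : Fin T.length, (T.getD (τ i).1 (0, 0, 0)).2.1 :=
    (Equiv.sum_comp τ fun i : Fin T.length => (T.getD i.1 (0, 0, 0)).2.1).symm
  rw [h1, h2, ← Finset.sum_add_distrib]
  refine Finset.sum_congr rfl fun g _ => ?_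
  have := hst g
  rw [List.getD_eq_getElem _ _ (σ g).2, List.getD_eq_getElem _ _ (τ g).2,
    List.getD_eq_getElem _ _ g.2]
  exact this

theorem N3_iff {T : List (ℕ × ℕ × ℕ)} : N3 T ↔ ∃ σ τ : Equiv.Perm (Fin T.length),
    ∀ g : Fin T.length, nA T (σ g) + nB T (τ g) = nC T g := by
  unfold N3 nA nB nC
  refine exists_congr fun σ => exists_congr fun τ => forall_congr' fun g => ?_
  rw [List.getD_eq_getElem _ _ (σ g).2, List.getD_eq_getElem _ _ (τ g).2,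
    List.getD_eq_getElem _ _ g.2]
  rfl

theorem dat_of {T : List (ℕ × ℕ × ℕ)} {U : ℕ} (hb : ∀ t ∈ T, t.1 ≤ U ∧ t.2.1 ≤ U ∧ t.2.2 ≤ U)
    (he : eqs T = true) : Dat (n := T.length) (U + 1) (4 * U + 3) (fun g => nA T g)
      (fun g => nB T g) (fun g => nC T g) := by
  have hm : ∀ g : Fin T.length, T.getD g.1 (0, 0, 0) ∈ T := fun g => by
    rw [List.getD_eq_getElem _ _ g.2]
    exact List.getElem_mem _
  refine ⟨by ring, fun g => Nat.lt_succ_iff.2 (hb _ (hm g)).1,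
    fun g => Nat.lt_succ_iff.2 (hb _ (hm g)).2.1, fun g => Nat.lt_succ_iff.2 (hb _ (hm g)).2.2, ?_⟩
  unfold eqs at he
  rw [decide_eq_true_iff, ← sum_getD, ← sum_getD, ← sum_getD] at he
  exact he

/-- **Correctness of the reduction.** -/
theorem red_spec (I : List (ℕ × ℕ × ℕ) × List Unit) (h : Bd I) :
    ∃ (n m : ℕ) (G : SimpleGraph (Fin n)) (H : SimpleGraph (Fin m)),
      red I = (adjMatrix G, adjMatrix H) ∧ (pathGraph 5).Free G ∧ (pathGraph 5).Free H ∧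
      (N3 I.1 ↔ H ⊑ G) := by
  unfold red
  rw [tr_eq h]
  cases he : eqs I.1
  · refine ⟨0, 1, ⊥, ⊥, ?_, ?_, ?_, ?_⟩
    · rw [cond_false]
      refine Prod.ext ?_ ?_
      · simp [R671.adjMatrix]
      · simp [R671.adjMatrix]
    · rintro ⟨f⟩
      exact (f 0).elim0
    · rintro ⟨f⟩
      have := f.injective (Subsingleton.elim (f 0) (f 1))
      exact absurd this (by decide)
    · constructor
      · intro h3
        rw [eqs_of_N3 h3] at he
        exact absurd he (by simp)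
      · rintro ⟨f⟩
        exact (f 0).elim0
  · rw [cond_true]
    have hd := dat_of h he
    obtain ⟨e1⟩ := iso_H I.1 I.2.length
    obtain ⟨e2⟩ := iso_P I.1 I.2.length
    refine ⟨_, _, gH I.1 I.2.length, gP I.1 I.2.length, ?_, ?_, ?_, ?_⟩
    · rw [adjMatrix_gH, adjMatrix_gP]
    · intro hc
      exact clg_free EH_unique ((isContained_congr_right e1).1 hc)
    · intro hc
      exact clg_free EP_unique ((isContained_congr_right e2).1 hc)
    · rw [isContained_congr e2 e1, hd.main, N3_iff]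

end Pool.Agent.R892.P5
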