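import Pool.Agent.R892.P5.PolyRed
import Pool.Agent.R892.P5.Mem

/-!
# Subgraph isomorphism: assembly
-/

set_option autoImplicit false

namespace Pool.Agent.NPC.R892

open Pool.Agent.R892 Pool.Agent.R892.P5 Pool.Agent.NPC.R671 SimpleGraph

theorem sub_adjMatrix {W : Type} {F : SimpleGraph W} {n m : ℕ} (G : SimpleGraph (Fin n))
    (H : SimpleGraph (Fin m)) : SubIsoOn F (R671.adjMatrix G, R671.adjMatrix H) ↔
      F.Free G ∧ F.Free H ∧ H ⊑ G := by
  constructor
  · rintro ⟨n', m', G', H', h1, h2, h3⟩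
    have hn : n' = n := by
      have := congrArg List.length h1
      rwa [length_adjMatrix, length_adjMatrix] at this
    have hm : m' = m := by
      have := congrArg List.length h2
      rwa [length_adjMatrix, length_adjMatrix] at this
    subst hn hm
    rw [adjMatrix_inj h1, adjMatrix_inj h2] at h3
    exact h3
  · intro h
    exact ⟨n, m, G, H, rfl, rfl, h⟩

theorem hard_sub : ∀ L : Set (List Bool), InNP L →
    ∃ f : List Bool → List Bool, PolyTime f ∧
    ∀ x, ∃ (n m : ℕ) (G : SimpleGraph (Fin n)) (H : SimpleGraph (Fin m)),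
      f x = bits (R671.adjMatrix G, R671.adjMatrix H) ∧ (pathGraph 5).Free G ∧
      (pathGraph 5).Free H ∧ (x ∈ L ↔ H ⊑ G) := by
  intro L hL
  obtain ⟨g, hg, hb, hgL⟩ := hardPr_N3 L hL
  refine ⟨fun x => bits (red (g x)), PC.toPolyTime_bits poly_red g hg, fun x => ?_⟩
  obtain ⟨n, m, G, H, h1, h2, h3, h4⟩ := red_spec (g x) (hb x)
  exact ⟨n, m, G, H, congrArg bits h1, h2, h3, (hgL x).trans h4⟩

theorem npHard_sub {W : Type} {F : SimpleGraph W} (hF : pathGraph 5 ⊑ F) :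
    NPHardP (SubIsoOn F) := by
  intro L hL
  obtain ⟨f, hf, h⟩ := hard_sub L hL
  refine ⟨f, hf, fun x => ?_⟩
  obtain ⟨n, m, G, H, h1, h2, h3, h4⟩ := h x
  have e : (x ∈ L) ↔ SubIsoOn F (R671.adjMatrix G, R671.adjMatrix H) := by
    rw [sub_adjMatrix, h4]
    exact ⟨fun h => ⟨fun h' => h2 (hF.trans h'), fun h' => h3 (hF.trans h'), h⟩, fun h => h.2.2⟩
  rw [e]
  constructor
  · intro h3
    exact ⟨_, h1.symm, h3⟩
  · rintro ⟨a, ha, h3⟩
    rw [h1] at ha
    rwa [bits_injective ha] at h3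

theorem path_sub_two : pathGraph 5 ⊑ (pathGraph 5 ⊕g pathGraph 5) :=
  ⟨SimpleGraph.Embedding.sumInl.toCopy⟩

end Pool.Agent.NPC.R892
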