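import Mathlib

/-!
# Graphs made of centres and leaves
-/

set_option autoImplicit false
set_option linter.unusedSectionVars false

namespace Pool.Agent.R892.P5

open SimpleGraph

variable {C C' : Type}

/-- The vertices: the centres `(c, 0)`, and the leaves `(c, i)`, `1 ≤ i ≤ ℓ c`. -/
abbrev Vt (ℓ : C → ℕ) : Type := {p : C × ℕ // p.2 ≤ ℓ p.1}

/-- The graph in which `c` has `ℓ c` leaves, and the centres are joined by the relation `E`. -/
def clg (ℓ : C → ℕ) (E : C → C → Prop) (hs : ∀ a b, E a b → E b a) (hi : ∀ a, ¬ E a a) :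
    SimpleGraph (Vt ℓ) where
  Adj u v := (u.1.2 = 0 ∧ v.1.2 = 0 ∧ E u.1.1 v.1.1) ∨
    (u.1.1 = v.1.1 ∧ ((u.1.2 = 0 ∧ v.1.2 ≠ 0) ∨ (u.1.2 ≠ 0 ∧ v.1.2 = 0)))
  symm := ⟨by
    rintro u v (⟨h1, h2, h3⟩ | ⟨h1, h2⟩)
    · exact Or.inl ⟨h2, h1, hs _ _ h3⟩
    · exact Or.inr ⟨h1.symm, h2.symm.imp And.symm And.symm⟩⟩
  loopless := ⟨by
    rintro u (⟨-, -, h3⟩ | ⟨-, h2 | h2⟩)
    · exact hi _ h3
    · exact h2.2 h2.1
    · exact h2.1 h2.2⟩

variable {ℓ : C → ℕ} {E : C → C → Prop} {hs : ∀ a b, E a b → E b a} {hi : ∀ a, ¬ E a a}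
  {ℓ' : C' → ℕ} {E' : C' → C' → Prop} {hs' : ∀ a b, E' a b → E' b a} {hi' : ∀ a, ¬ E' a a}

theorem leaf_nb {u v : Vt ℓ} (h : (clg ℓ E hs hi).Adj u v) (hu : u.1.2 ≠ 0) :
    v.1 = (u.1.1, 0) := by
  rcases h with ⟨h1, -, -⟩ | ⟨h1, ⟨h2, -⟩ | ⟨-, h2⟩⟩
  · exact absurd h1 hu
  · exact absurd h2 hu
  · exact Prod.ext h1.symm h2

theorem centre_of_two {u v w : Vt ℓ} (h : (clg ℓ E hs hi).Adj u v)
    (h' : (clg ℓ E hs hi).Adj u w) (hvw : v ≠ w) : u.1.2 = 0 := by
  by_contra hu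
  exact hvw (Subtype.ext ((leaf_nb h hu).trans (leaf_nb h' hu).symm))

theorem adj_centres {u v : Vt ℓ} (h : (clg ℓ E hs hi).Adj u v) (hu : u.1.2 = 0)
    (hv : v.1.2 = 0) : E u.1.1 v.1.1 := by
  rcases h with ⟨-, -, h3⟩ | ⟨-, ⟨-, h2⟩ | ⟨h2, -⟩⟩
  · exact h3
  · exact absurd hv h2
  · exact absurd hu h2

theorem clg_free (hE : ∀ a b c, E a b → E a c → b = c) :
    (pathGraph 5).Free (clg ℓ E hs hi) := by
  rintro ⟨f⟩
  have adj : ∀ i j : Fin 5, i.1 + 1 = j.1 → (clg ℓ E hs hi).Adj (f i) (f j) := fun i j h =>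
    f.toHom.map_adj (pathGraph_adj.2 (Or.inl h))
  have inj := f.injective
  have a01 := adj 0 1 rfl
  have a12 := adj 1 2 rfl
  have a23 := adj 2 3 rfl
  have a34 := adj 3 4 rfl
  have c1 := centre_of_two a01.symm a12 (fun h => absurd (inj h) (by decide))
  have c2 := centre_of_two a12.symm a23 (fun h => absurd (inj h) (by decide))
  have c3 := centre_of_two a23.symm a34 (fun h => absurd (inj h) (by decide))
  have e1 := adj_centres a12.symm c2 c1
  have e2 := adj_centres a23 c2 c3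
  have e3 := hE _ _ _ e1 e2
  have : f 1 = f 3 := Subtype.ext (Prod.ext e3 (c1.trans c3.symm))
  exact absurd (inj this) (by decide)

theorem contained_iff [Fintype C] [Fintype C'] (hc : Fintype.card C = Fintype.card C')
    (hd : ∀ c, 2 ≤ ℓ c ∨ (1 ≤ ℓ c ∧ ∃ d, E c d)) :
    clg ℓ E hs hi ⊑ clg ℓ' E' hs' hi' ↔
      ∃ F : C ≃ C', (∀ c, ℓ c ≤ ℓ' (F c)) ∧ ∀ c d, E c d → E' (F c) (F d) := by
  constructor
  · rintro ⟨f⟩
    have inj := f.injective
    have adj : ∀ {u v : Vt ℓ}, (clg ℓ E hs hi).Adj u v → (clg ℓ' E' hs' hi').Adj (f u) (f v) :=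
      fun h => f.toHom.map_adj h
    let ce : C → Vt ℓ := fun c => ⟨(c, 0), Nat.zero_le _⟩
    have hcentre : ∀ c, (f (ce c)).1.2 = 0 := by
      intro c
      have hleaf : ∀ i (hi : i ≤ ℓ c), i ≠ 0 → (clg ℓ E hs ‹_›).Adj (ce c) ⟨(c, i), hi⟩ :=
        fun i hi h0 => Or.inr ⟨rfl, Or.inl ⟨rfl, h0⟩⟩
      rcases hd c with h | ⟨h, d, hcd⟩
      · refine centre_of_two (adj (hleaf 1 (by omega) (by omega)))
          (adj (hleaf 2 (by omega) (by omega))) fun h' => ?_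
        have := inj h'
        simp at this
      · have a1 : (clg ℓ E hs hi).Adj (ce c) (ce d) := Or.inl ⟨rfl, rfl, hcd⟩
        refine centre_of_two (adj (hleaf 1 (by omega) (by omega))) (adj a1) fun h' => ?_
        have := inj h'
        simp [ce] at this
    let F : C → C' := fun c => (f (ce c)).1.1
    have hF : ∀ c, (f (ce c)).1 = (F c, 0) := fun c => Prod.ext rfl (hcentre c)
    have Finj : Function.Injective F := by
      intro c d hcd
      have h1 : f (ce c) = f (ce d) := Subtype.ext (by rw [hF, hF, hcd])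
      have := inj h1
      simpa [ce] using this
    have Fbij : Function.Bijective F :=
      (Fintype.bijective_iff_injective_and_card F).2 ⟨Finj, hc⟩
    refine ⟨Equiv.ofBijective F Fbij, fun c => ?_, fun c d hcd => ?_⟩
    · show ℓ c ≤ ℓ' (F c)
      have key : ∀ i : Fin (ℓ c), ∃ j : Fin (ℓ' (F c)),
          (f ⟨(c, i.1 + 1), i.2⟩).1 = (F c, j.1 + 1) := by
        intro i
        have a1 : (clg ℓ E hs hi).Adj (ce c) ⟨(c, i.1 + 1), i.2⟩ :=
          Or.inr ⟨rfl, Or.inl ⟨rfl, by simp⟩⟩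
        have a2 := adj a1
        have h0 : (f ⟨(c, i.1 + 1), i.2⟩).1.2 ≠ 0 := by
          intro h0
          obtain ⟨d, hd⟩ := Fbij.2 (f ⟨(c, i.1 + 1), i.2⟩).1.1
          have : f (ce d) = f ⟨(c, i.1 + 1), i.2⟩ := Subtype.ext (by
            rw [hF d, hd]
            exact Prod.ext rfl h0.symm)
          have := inj this
          simp [ce] at this
        have h1 := leaf_nb a2.symm h0
        rw [hF c] at h1
        have h2 : F c = (f ⟨(c, i.1 + 1), i.2⟩).1.1 := (Prod.ext_iff.1 h1).1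
        have h3 := (f ⟨(c, i.1 + 1), i.2⟩).2
        refine ⟨⟨(f ⟨(c, i.1 + 1), i.2⟩).1.2 - 1, ?_⟩, Prod.ext h2.symm ?_⟩
        · rw [h2]
          omega
        · show _ = (f ⟨(c, i.1 + 1), i.2⟩).1.2 - 1 + 1
          omega
      choose g hg using key
      have ginj : Function.Injective g := by
        intro i j hij
        have h1 : f ⟨(c, i.1 + 1), i.2⟩ = f ⟨(c, j.1 + 1), j.2⟩ :=
          Subtype.ext (by rw [hg, hg, hij])
        have h2 := inj h1
        simp only [Subtype.mk.injEq, Prod.mk.injEq, true_and, Nat.add_right_cancel_iff] at h2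
        exact Fin.ext h2
      have := Fintype.card_le_of_injective g ginj
      simpa using this
    · have a1 : (clg ℓ E hs hi).Adj (ce c) (ce d) := Or.inl ⟨rfl, rfl, hcd⟩
      exact adj_centres (adj a1) (hcentre c) (hcentre d)
  · rintro ⟨F, h1, h2⟩
    refine ⟨⟨⟨fun u => ⟨(F u.1.1, u.1.2), u.2.trans (h1 _)⟩, ?_⟩, ?_⟩⟩
    · rintro u v (⟨h3, h4, h5⟩ | ⟨h3, h4⟩)
      · exact Or.inl ⟨h3, h4, h2 _ _ h5⟩
      · exact Or.inr ⟨congrArg F h3, h4⟩
    · intro u v huv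
      have h3 : ((F u.1.1, u.1.2) : C' × ℕ) = (F v.1.1, v.1.2) := congrArg Subtype.val huv
      have h4 : F u.1.1 = F v.1.1 := (Prod.ext_iff.1 h3).1
      have h5 : u.1.2 = v.1.2 := (Prod.ext_iff.1 h3).2
      exact Subtype.ext (Prod.ext (F.injective h4) h5)

end Pool.Agent.R892.P5
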