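import Pool.Agent.H557R2.Tri.Main
import Pool.Agent.H557R2.Tri.Src
import Pool.Agent.H671R2.PolyAuto

/-!
# Numerical three-dimensional matching is strongly NP-hard
-/

set_option autoImplicit false
set_option linter.unusedSectionVars false

namespace Pool.Agent.R892.P5

open Pool.Agent.NPC Pool.Agent.NPC.H632 Pool.Agent.H557R2.Tri

/-- Numerical three-dimensional matching. -/
def N3 (T : List (ℕ × ℕ × ℕ)) : Prop :=
  ∃ σ τ : Equiv.Perm (Fin T.length), ∀ g, T[σ g].1 + T[τ g].2.1 = T[g].2.2

theorem exists_equiv_of_map {X Y α : Type} [Fintype X] [Fintype Y] (f : X → α) (g : Y → α)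
    (h : (Finset.univ : Finset X).val.map f = (Finset.univ : Finset Y).val.map g) :
    ∃ e : X ≃ Y, ∀ x, g (e x) = f x := by
  classical
  have hc : ∀ v, Fintype.card {x // f x = v} = Fintype.card {y // g y = v} := by
    intro v
    have h1 := congrArg (Multiset.count v) h
    rw [Multiset.count_map, Multiset.count_map] at h1
    rw [Fintype.card_subtype, Fintype.card_subtype, Finset.card_def, Finset.card_def,
      Finset.filter_val, Finset.filter_val]
    simp only [eq_comm (a := v)] at h1
    exact h1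
  let e : X ≃ Y := (Equiv.sigmaFiberEquiv f).symm.trans
    ((Equiv.sigmaCongrRight fun v => Fintype.equivOfCardEq (hc v)).trans (Equiv.sigmaFiberEquiv g))
  refine ⟨e, fun x => ?_⟩
  exact (Fintype.equivOfCardEq (hc (f x)) ⟨x, rfl⟩).2

theorem exists_equiv_of_perm {n : ℕ} {α : Type} {l : List α} {f : Fin n → α}
    (h : l.Perm (List.ofFn f)) : ∃ e : Fin l.length ≃ Fin n, ∀ i, f (e i) = l[i] := by
  refine exists_equiv_of_map (fun i : Fin l.length => l[i]) f ?_
  rw [Fin.univ_val_map, Fin.univ_val_map]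
  have : List.ofFn (fun i : Fin l.length => l[i]) = l := List.ofFn_getElem
  rw [this]
  exact Multiset.coe_eq_coe.2 h

section

variable {S : List (ℕ × ℕ × ℕ)} {q : ℕ}

/-- The elements of the first kind, and so on. -/
def eG (S : List (ℕ × ℕ × ℕ)) (q : ℕ) (r : Fin 3) (j : ℕ) : Elt :=
  if r = 0 then eA S q (j % 3) (j / 3) else if r = 1 then eB S (j % 3) (j / 3) else
    eC S q (j % 3) (j / 3)

theorem flatMap_range_three {α : Type} (h : ℕ → ℕ → α) (m : ℕ) :
    ((List.range m).flatMap fun i => (List.range 3).map fun k => h k i) =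
      (List.range (3 * m)).map fun j => h (j % 3) (j / 3) := by
  induction m with
  | zero => rfl
  | succ m ih =>
    rw [List.range_succ (n := m), List.flatMap_append, ih, show 3 * (m + 1) = 3 * m + 1 + 1 + 1 by ring,
      List.range_succ (n := 3 * m + 1 + 1), List.range_succ (n := 3 * m + 1),
      List.range_succ (n := 3 * m)]
    simp only [List.flatMap_cons, List.flatMap_nil, List.append_nil, List.map_append,
      List.map_cons, List.map_nil, List.append_assoc]
    have e0 : (3 * m) % 3 = 0 := by omega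
    have e1 : (3 * m + 1) % 3 = 1 := by omega
    have e2 : (3 * m + 1 + 1) % 3 = 2 := by omega
    have f0 : (3 * m) / 3 = m := by omega
    have f1 : (3 * m + 1) / 3 = m := by omega
    have f2 : (3 * m + 1 + 1) / 3 = m := by omega
    have r3 : List.range 3 = [0, 1, 2] := rfl
    simp only [e0, e1, e2, f0, f1, f2, r3, List.map_cons, List.map_nil, List.cons_append,
      List.nil_append]

theorem EE_perm : (EE S q).Perm (((List.range (3 * S.length)).map (eG S q 0)) ++
    (((List.range (3 * S.length)).map (eG S q 1)) ++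
      ((List.range (3 * S.length)).map (eG S q 2)))) := by
  have h0 : (List.range (3 * S.length)).map (eG S q 0) =
      (List.range S.length).flatMap fun i => (List.range 3).map fun k => eA S q k i := by
    rw [flatMap_range_three]; rfl
  have h1 : (List.range (3 * S.length)).map (eG S q 1) =
      (List.range S.length).flatMap fun i => (List.range 3).map fun k => eB S k i := by
    rw [flatMap_range_three]; rfl
  have h2 : (List.range (3 * S.length)).map (eG S q 2) =
      (List.range S.length).flatMap fun i => (List.range 3).map fun k => eC S q k i := by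
    rw [flatMap_range_three]; rfl
  rw [h0, h1, h2]
  unfold EE
  refine (List.flatMap_append_perm _ _ _).symm.trans ?_
  exact List.Perm.append_left _ (List.flatMap_append_perm _ _ _).symm

theorem flatMap_el_perm {α : Type} : ∀ π : List (α × α × α), (π.flatMap el).Perm
    (π.map (fun t => t.1) ++ (π.map (fun t => t.2.1) ++ π.map (fun t => t.2.2)))
  | [] => List.Perm.refl _
  | t :: π => by
    have ih := flatMap_el_perm π
    rw [List.flatMap_cons]
    simp only [List.map_cons, el, List.cons_append, List.nil_append]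
    refine List.Perm.cons _ ?_
    refine List.Perm.trans ?_ (List.perm_middle).symm
    refine List.Perm.cons _ ?_
    rw [← List.append_assoc]
    refine List.Perm.trans ?_ (List.perm_middle).symm
    refine List.Perm.cons _ ?_
    rw [List.append_assoc]
    exact ih

theorem filter_split {l0 l1 l2 : List Elt} (h0 : ∀ e ∈ l0, e.1 = 0) (h1 : ∀ e ∈ l1, e.1 = 1)
    (h2 : ∀ e ∈ l2, e.1 = 2) : (l0 ++ (l1 ++ l2)).filter (fun e => decide (e.1 = 0)) = l0 ∧
    (l0 ++ (l1 ++ l2)).filter (fun e => decide (e.1 = 1)) = l1 ∧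
    (l0 ++ (l1 ++ l2)).filter (fun e => decide (e.1 = 2)) = l2 := by
  have key : ∀ (l : List Elt) (a b : ℕ), (∀ e ∈ l, e.1 = a) →
      l.filter (fun e => decide (e.1 = b)) = if a = b then l else [] := by
    intro l a b h
    by_cases hab : a = b
    · rw [if_pos hab, List.filter_eq_self]
      intro e he
      rw [h e he, hab]; simp
    · rw [if_neg hab, List.filter_eq_nil_iff]
      intro e he
      rw [h e he]; simp [hab]
  refine ⟨?_, ?_, ?_⟩
  · rw [List.filter_append, List.filter_append, key l0 0 0 h0, key l1 1 0 h1, key l2 2 0 h2]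
    simp
  · rw [List.filter_append, List.filter_append, key l0 0 1 h0, key l1 1 1 h1, key l2 2 1 h2]
    simp
  · rw [List.filter_append, List.filter_append, key l0 0 2 h0, key l1 1 2 h1, key l2 2 2 h2]
    simp

theorem range_map_ofFn {α : Type} (n : ℕ) (f : ℕ → α) :
    (List.range n).map f = List.ofFn fun i : Fin n => f i := by
  apply List.ext_getElem
  · simp
  · intro i h1 h2
    simp

theorem eG_type (r : Fin 3) (j : ℕ) : (eG S q r j).1 = r.1 := by
  fin_cases r <;> rfl

/-- The matching problem, with indices. -/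
theorem Pr.x3c_perm (h : Pr S q) : X3C (S, q) ↔ ∃ σ τ : Equiv.Perm (Fin (3 * S.length)),
    ∀ g, mn S.length (eG S q 0 (σ g)) + mn S.length (eG S q 1 (τ g)) +
      mn S.length (eG S q 2 g) = 0 := by
  constructor
  · intro hx
    obtain ⟨π, h1, h2, h3⟩ := h.of_x3c hx
    have hp := ((flatMap_el_perm π).symm.trans h1).trans EE_perm
    have t0 : ∀ e ∈ π.map (fun t => t.1), e.1 = 0 := by
      intro e he
      obtain ⟨t, ht, rfl⟩ := List.mem_map.1 he
      exact (h2 t ht).1
    have t1 : ∀ e ∈ π.map (fun t => t.2.1), e.1 = 1 := by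
      intro e he
      obtain ⟨t, ht, rfl⟩ := List.mem_map.1 he
      exact (h2 t ht).2.1
    have t2 : ∀ e ∈ π.map (fun t => t.2.2), e.1 = 2 := by
      intro e he
      obtain ⟨t, ht, rfl⟩ := List.mem_map.1 he
      exact (h2 t ht).2.2
    have s : ∀ r : Fin 3, ∀ e ∈ (List.range (3 * S.length)).map (eG S q r), e.1 = r.1 := by
      intro r e he
      obtain ⟨j, -, rfl⟩ := List.mem_map.1 he
      exact eG_type r j
    obtain ⟨a0, a1, a2⟩ := filter_split t0 t1 t2
    obtain ⟨b0, b1, b2⟩ := filter_split (s 0) (s 1) (s 2)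
    have p0 := hp.filter (fun e => decide (e.1 = 0))
    have p1 := hp.filter (fun e => decide (e.1 = 1))
    have p2 := hp.filter (fun e => decide (e.1 = 2))
    rw [a0, b0, range_map_ofFn] at p0
    rw [a1, b1, range_map_ofFn] at p1
    rw [a2, b2, range_map_ofFn] at p2
    obtain ⟨e0, f0⟩ := exists_equiv_of_perm p0
    obtain ⟨e1, f1⟩ := exists_equiv_of_perm p1
    obtain ⟨e2, f2⟩ := exists_equiv_of_perm p2
    let c0 : Fin π.length ≃ Fin (π.map (fun t => t.1)).length := finCongr (by simp)
    let c1 : Fin π.length ≃ Fin (π.map (fun t => t.2.1)).length := finCongr (by simp)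
    let c2 : Fin π.length ≃ Fin (π.map (fun t => t.2.2)).length := finCongr (by simp)
    refine ⟨((c2.trans e2).symm.trans c0).trans e0, ((c2.trans e2).symm.trans c1).trans e1,
      fun g => ?_⟩
    obtain ⟨p, rfl⟩ := (c2.trans e2).surjective g
    have g0 : eG S q 0 (e0 (c0 p)) = π[p].1 := by
      rw [f0]; simp [c0]
    have g1 : eG S q 1 (e1 (c1 p)) = π[p].2.1 := by
      rw [f1]; simp [c1]
    have g2 : eG S q 2 (e2 (c2 p)) = π[p].2.2 := by
      rw [f2]; simp [c2]
    have := h3 π[p] (List.getElem_mem _)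
    unfold ms at this
    simp only [Equiv.trans_apply, Equiv.symm_apply_apply, Equiv.symm_trans_apply, g0, g1, g2]
    exact this
  · rintro ⟨σ, τ, hst⟩
    let π : List (Elt × Elt × Elt) := List.ofFn fun g : Fin (3 * S.length) =>
      (eG S q 0 (σ g), eG S q 1 (τ g), eG S q 2 g)
    refine h.to_x3c (π := π) ?_ ?_ ?_
    · refine (flatMap_el_perm π).trans (List.Perm.trans ?_ EE_perm.symm)
      have m0 : (π.map fun t => t.1).Perm ((List.range (3 * S.length)).map (eG S q 0)) := by
        rw [range_map_ofFn, List.map_ofFn]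
        exact Equiv.Perm.ofFn_comp_perm σ (fun i : Fin (3 * S.length) => eG S q 0 i)
      have m1 : (π.map fun t => t.2.1).Perm ((List.range (3 * S.length)).map (eG S q 1)) := by
        rw [range_map_ofFn, List.map_ofFn]
        exact Equiv.Perm.ofFn_comp_perm τ (fun i : Fin (3 * S.length) => eG S q 1 i)
      have m2 : (π.map fun t => t.2.2).Perm ((List.range (3 * S.length)).map (eG S q 2)) := by
        rw [range_map_ofFn, List.map_ofFn]
        exact List.Perm.refl _
      exact m0.append (m1.append m2)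
    · intro t ht
      obtain ⟨g, rfl⟩ := List.mem_ofFn.1 ht
      exact ⟨eG_type (q := q) 0 _, eG_type (q := q) 1 _, eG_type (q := q) 2 _⟩
    · intro t ht
      obtain ⟨g, rfl⟩ := List.mem_ofFn.1 ht
      exact hst g

/-! ### Natural numbers -/

/-- The modulus. -/
def KKn (q : ℕ) : ℕ := 32 * (12 * q + 12)

/-- Numbers of the first kind. -/
def an (S : List (ℕ × ℕ × ℕ)) (q k i : ℕ) : ℕ :=
  KKn q * (S.length - i) - (bif decide (k = 0) then 32 * cmp S 0 i + 3 else
    bif decide (k = 1) then 32 * cmp S 1 i + 8 else 32 * cmp S 1 i + 10)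

/-- Numbers of the second kind. -/
def bn (S : List (ℕ × ℕ × ℕ)) (k i : ℕ) : ℕ :=
  bif decide (k = 0) then 32 * cmp S 0 i + (bif rl S 0 i then 2 else 3) else
    bif decide (k = 1) then 32 * cmp S 1 i + (bif rl S 1 i then 8 else 9) else
      32 * cmp S 2 i + (bif rl S 2 i then 20 else 18)

/-- Numbers of the third kind. -/
def cn (S : List (ℕ × ℕ × ℕ)) (q k i : ℕ) : ℕ :=
  (KKn q * (S.length - i) + (bif decide (k < 2) then 0 else 32 * cmp S 2 i + 10)) -
    (bif decide (k = 0) then 0 else bif decide (k = 1) then 1 else 32 * cmp S 1 i)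

/-- The numerical instance. -/
def TN (I : List (ℕ × ℕ × ℕ) × ℕ) : List (ℕ × ℕ × ℕ) :=
  (List.range (3 * I.1.length)).map fun j =>
    (an I.1 I.2 (j % 3) (j / 3), bn I.1 (j % 3) (j / 3), cn I.1 I.2 (j % 3) (j / 3))

theorem Pr.cmp_le (h : Pr S q) {i : ℕ} (hi : i < S.length) (r : ℕ) : cmp S r i < 3 * q :=
  h.cmp_lt hi r

theorem KK_mul (h : Pr S q) {i : ℕ} (hi : i < S.length) : KKn q ≤ KKn q * (S.length - i) := by
  have : 1 ≤ S.length - i := by omega
  exact Nat.le_mul_of_pos_right _ this

theorem KKn_cast {i : ℕ} (hi : i < S.length) : ((KKn q * (S.length - i) : ℕ) : ℤ) =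
    KK q * (S.length + 1) - KK q * (i + 1) := by
  have : ((S.length - i : ℕ) : ℤ) = S.length - i := by omega
  unfold KKn KK
  push_cast
  rw [this]
  ring

theorem Pr.an_cast (h : Pr S q) {i : ℕ} (hi : i < S.length) (k : ℕ) (hk : k < 3) :
    (an S q k i : ℤ) = KK q * (S.length + 1) + mn S.length (eA S q k i) := by
  rw [mn_eA]
  have h1 := KK_mul h hi
  have h2 := KKn_cast (q := q) hi
  have c0 := h.cmp_lt hi 0
  have c1 := h.cmp_lt hi 1
  have h3 : KKn q = 32 * (12 * q + 12) := rfl
  unfold an aS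
  rcases (show k = 0 ∨ k = 1 ∨ k = 2 by omega) with rfl | rfl | rfl <;>
    simp <;> omega

theorem Pr.bn_cast (h : Pr S q) {i : ℕ} (hi : i < S.length) (k : ℕ) (hk : k < 3) :
    (bn S k i : ℤ) = mn S.length (eB S k i) := by
  rw [mn_eB hi]
  unfold bn bS
  rcases (show k = 0 ∨ k = 1 ∨ k = 2 by omega) with rfl | rfl | rfl
  · cases rl S 0 i <;> simp
  · cases rl S 1 i <;> simp
  · cases rl S 2 i <;> simp

theorem Pr.cn_cast (h : Pr S q) {i : ℕ} (hi : i < S.length) (k : ℕ) (hk : k < 3) :
    (cn S q k i : ℤ) = KK q * (S.length + 1) - mn S.length (eC S q k i) := by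
  rw [mn_eC]
  have h1 := KK_mul h hi
  have h2 := KKn_cast (q := q) hi
  have c1 := h.cmp_lt hi 1
  have c2 := h.cmp_lt hi 2
  have h3 : KKn q = 32 * (12 * q + 12) := rfl
  unfold cn cS
  rcases (show k = 0 ∨ k = 1 ∨ k = 2 by omega) with rfl | rfl | rfl <;>
    simp <;> omega

theorem Pr.x3c_N3 (h : Pr S q) : X3C (S, q) ↔ N3 (TN (S, q)) := by
  rw [Pr.x3c_perm h]
  have hl : (TN (S, q)).length = 3 * S.length := by simp [TN]
  have hT : ∀ j : Fin (TN (S, q)).length, (TN (S, q))[j] =
      (an S q (j.1 % 3) (j.1 / 3), bn S (j.1 % 3) (j.1 / 3), cn S q (j.1 % 3) (j.1 / 3)) := by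
    intro j
    rw [Fin.getElem_fin]
    unfold TN
    rw [List.getElem_map, List.getElem_range]
  have hi : ∀ j : Fin (3 * S.length), j.1 / 3 < S.length := fun j => by have := j.2; omega
  have hk : ∀ j : Fin (3 * S.length), j.1 % 3 < 3 := fun j => by omega
  have hA : ∀ j : Fin (3 * S.length), (an S q (j.1 % 3) (j.1 / 3) : ℤ) =
      KK q * (S.length + 1) + mn S.length (eG S q 0 j.1) := fun j => Pr.an_cast h (hi j) _ (hk j)
  have hB : ∀ j : Fin (3 * S.length), (bn S (j.1 % 3) (j.1 / 3) : ℤ) =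
      mn S.length (eG S q 1 j.1) := fun j => Pr.bn_cast h (hi j) _ (hk j)
  have hC : ∀ j : Fin (3 * S.length), (cn S q (j.1 % 3) (j.1 / 3) : ℤ) =
      KK q * (S.length + 1) - mn S.length (eG S q 2 j.1) := fun j => Pr.cn_cast h (hi j) _ (hk j)
  let c : Fin (TN (S, q)).length ≃ Fin (3 * S.length) := finCongr hl
  have hc : ∀ j : Fin (TN (S, q)).length, j.1 = (c j).1 := fun j => rfl
  unfold N3
  constructor
  · rintro ⟨σ, τ, hst⟩
    refine ⟨(c.trans σ).trans c.symm, (c.trans τ).trans c.symm, fun g => ?_⟩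
    rw [hT, hT, hT]
    simp only [hc, Equiv.trans_apply, Equiv.apply_symm_apply]
    have := hst (c g)
    have e1 := hA (σ (c g))
    have e2 := hB (τ (c g))
    have e3 := hC (c g)
    omega
  · rintro ⟨σ, τ, hst⟩
    refine ⟨(c.symm.trans σ).trans c, (c.symm.trans τ).trans c, fun g => ?_⟩
    have := hst (c.symm g)
    rw [hT, hT, hT] at this
    simp only [hc, Equiv.apply_symm_apply] at this
    have e1 := hA (c (σ (c.symm g)))
    have e2 := hB (c (τ (c.symm g)))
    have e3 := hC g
    simp only [Equiv.trans_apply]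
    omega

theorem Pr.q_le (h : Pr S q) : q ≤ S.length := by
  have h1 : (List.range (3 * q)).Subperm (S.flatMap el) := by
    refine List.subperm_of_subset List.nodup_range ?_
    intro e he
    obtain ⟨t, ht, het⟩ := h.occ e (List.mem_range.1 he)
    exact List.mem_flatMap.2 ⟨t, ht, het⟩
  have h2 := h1.length_le
  rw [List.length_range, length_flatMap_el] at h2
  omega

/-- The bound, in unary. -/
def UN (S : List (ℕ × ℕ × ℕ)) : List Unit :=
  List.replicate (32 * (12 * S.length + 12) * (S.length + 2)) ()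

/-- The promise: all numbers are bounded by the length of a string. -/
def Bd (I : List (ℕ × ℕ × ℕ) × List Unit) : Prop :=
  ∀ t ∈ I.1, t.1 ≤ I.2.length ∧ t.2.1 ≤ I.2.length ∧ t.2.2 ≤ I.2.length

theorem Pr.bd (h : Pr S q) : Bd (TN (S, q), UN S) := by
  intro t ht
  obtain ⟨j, hj, rfl⟩ := List.mem_map.1 ht
  rw [List.mem_range] at hj
  have hi : j / 3 < S.length := by simp only at hj; omega
  have hq := Pr.q_le h
  have c0 := h.cmp_lt hi 0
  have c1 := h.cmp_lt hi 1
  have c2 := h.cmp_lt hi 2
  have hu : (UN S).length = 32 * (12 * S.length + 12) * (S.length + 2) := by simp [UN]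
  have h1 : KKn q * (S.length - j / 3) ≤ 32 * (12 * S.length + 12) * S.length := by
    unfold KKn
    gcongr
    omega
  have h2 : 32 * (12 * S.length + 12) * (S.length + 2) =
      32 * (12 * S.length + 12) * S.length + 2 * (32 * (12 * S.length + 12)) := by ring
  rw [hu, h2]
  refine ⟨?_, ?_, ?_⟩
  · simp only
    unfold an
    omega
  · simp only
    unfold bn
    rcases (show j % 3 = 0 ∨ j % 3 = 1 ∨ j % 3 = 2 by omega) with e | e | e
    · rw [e]; cases rl S 0 (j / 3) <;> simp <;> omega
    · rw [e]; cases rl S 1 (j / 3) <;> simp <;> omega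
    · rw [e]; cases rl S 2 (j / 3) <;> simp <;> omega
  · simp only
    unfold cn
    rcases (show j % 3 = 0 ∨ j % 3 = 1 ∨ j % 3 = 2 by omega) with e | e | e <;>
      rw [e] <;> simp <;> omega

end

end Pool.Agent.R892.P5

namespace Pool.Agent.NPC.R892

open Pool.Agent.R892.P5 Pool.Agent.NPC.H632 Pool.Agent.H557R2.Tri

variable {α : Type} [TEnc α]

theorem poly_cmpN {S : α → List (ℕ × ℕ × ℕ)} {i : α → ℕ} (r : ℕ) (hS : Poly S) (hi : Poly i) :
    Poly (fun a => Pool.Agent.H557R2.Tri.cmp (S a) r (i a)) := by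
  unfold Pool.Agent.H557R2.Tri.cmp
  split_ifs <;> fun_prop

theorem poly_rlN {S : α → List (ℕ × ℕ × ℕ)} {i : α → ℕ} (r : ℕ) (hS : Poly S) (hi : Poly i) :
    Poly (fun a => rl (S a) r (i a)) := by
  unfold rl
  refine Poly.all (p := fun a j => !(decide (j < i a) && decide (Pool.Agent.H557R2.Tri.cmp (S a) r j = Pool.Agent.H557R2.Tri.cmp (S a) r (i a))))
    (Poly.range_uPoly (UPoly.length hS)) ?_
  have h1 : Poly (fun x : α × ℕ => Pool.Agent.H557R2.Tri.cmp (S x.1) r x.2) :=
    poly_cmpN r (hS.comp (Poly.fst Poly.id)) (Poly.snd Poly.id)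
  have h2 : Poly (fun x : α × ℕ => Pool.Agent.H557R2.Tri.cmp (S x.1) r (i x.1)) :=
    poly_cmpN r (hS.comp (Poly.fst Poly.id)) (hi.comp (Poly.fst Poly.id))
  have h3 : Poly (fun x : α × ℕ => i x.1) := hi.comp (Poly.fst Poly.id)
  fun_prop

theorem poly_TN : Poly TN := by
  unfold TN
  have hl : UPoly (fun I : List (ℕ × ℕ × ℕ) × ℕ => 3 * I.1.length) :=
    (UPoly.const 3).mul (UPoly.length (Poly.fst Poly.id))
  refine Poly.map (F := fun (I : List (ℕ × ℕ × ℕ) × ℕ) j =>
    (an I.1 I.2 (j % 3) (j / 3), bn I.1 (j % 3) (j / 3), cn I.1 I.2 (j % 3) (j / 3)))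
    (Poly.range_uPoly hl) ?_
  have hS : Poly (fun x : (List (ℕ × ℕ × ℕ) × ℕ) × ℕ => x.1.1) := Poly.fst (Poly.fst Poly.id)
  have hi : Poly (fun x : (List (ℕ × ℕ × ℕ) × ℕ) × ℕ => x.2 / 3) := by fun_prop
  have c0 := poly_cmpN 0 hS hi
  have c1 := poly_cmpN 1 hS hi
  have c2 := poly_cmpN 2 hS hi
  have r0 := poly_rlN 0 hS hi
  have r1 := poly_rlN 1 hS hi
  have r2 := poly_rlN 2 hS hi
  unfold an bn cn KKn
  fun_prop

theorem poly_UN : Poly UN := by
  have hl : UPoly (fun S : List (ℕ × ℕ × ℕ) => S.length) := UPoly.length Poly.id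
  exact ((UPoly.const 32).mul (((UPoly.const 12).mul hl).add (UPoly.const 12))).mul
    (hl.add (UPoly.const 2))

theorem hardPr_N3 : HardPr Bd (fun I => N3 I.1) :=
  hardPr_X3Cr.trans (f := fun I => (TN I, UN I.1)) (Poly.pair poly_TN
    (poly_UN.comp (Poly.fst Poly.id))) (fun _ h => Pr.bd h) (fun _ h => Pr.x3c_N3 h)

end Pool.Agent.NPC.R892
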