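import Pool.Agent.R892.P5.Graph
import Pool.Agent.R892.P5.N3

/-!
# The numerical core
-/

set_option autoImplicit false
set_option linter.unusedSectionVars false

namespace Pool.Agent.R892.P5

open Finset SimpleGraph

/-- Centres of the host. -/
abbrev CH (n L : ℕ) : Type := Fin n × Fin (L + 1) × Bool

/-- Centres of the pattern. -/
abbrev CP (n L : ℕ) : Type := (Fin n × Fin L × Bool) ⊕ (Fin n × Bool)

variable {n L : ℕ}

/-- The total number of the leaves of a double star. -/
def SS (W : ℕ) (γ : Fin n → ℕ) (g : Fin n) : ℕ := 2 * (γ g + 4 * W)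

/-- The numbers of the leaves of the host. -/
def lH (W : ℕ) (γ : Fin n → ℕ) (c : CH n L) : ℕ :=
  bif c.2.2 then SS W γ c.1 - (c.2.1.1 + 1) else c.2.1.1 + 1

/-- The numbers of the leaves of the pattern. -/
def lP (W : ℕ) (α β γ : Fin n → ℕ) : CP n L → ℕ
  | .inl c => bif c.2.2 then SS W γ c.1 - (c.2.1.1 + 2) else c.2.1.1 + 1
  | .inr c => bif c.2 then 2 * (β c.1 + 3 * W) else 2 * (α c.1 + W)

/-- Adjacency of the centres of the host. -/
def EH (c d : CH n L) : Prop := c.1 = d.1 ∧ c.2.1 = d.2.1 ∧ c.2.2 ≠ d.2.2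

/-- Adjacency of the centres of the pattern. -/
def EP : CP n L → CP n L → Prop
  | .inl c, .inl d => c.1 = d.1 ∧ c.2.1 = d.2.1 ∧ c.2.2 ≠ d.2.2
  | _, _ => False

theorem EH_symm (c d : CH n L) (h : EH c d) : EH d c := ⟨h.1.symm, h.2.1.symm, h.2.2.symm⟩

theorem EH_irrefl (c : CH n L) : ¬ EH c c := fun h => h.2.2 rfl

theorem EP_symm : ∀ c d : CP n L, EP c d → EP d c
  | .inl _, .inl _, h => ⟨h.1.symm, h.2.1.symm, h.2.2.symm⟩
  | .inl _, .inr _, h => h
  | .inr _, .inl _, h => h
  | .inr _, .inr _, h => h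

theorem EP_irrefl : ∀ c : CP n L, ¬ EP c c
  | .inl _, h => h.2.2 rfl
  | .inr _, h => h

theorem bool_ne {a b c : Bool} (h : a ≠ b) (h' : a ≠ c) : b = c := by
  revert h h'; cases a <;> cases b <;> cases c <;> simp

theorem EH_unique (a b c : CH n L) (h : EH a b) (h' : EH a c) : b = c :=
  Prod.ext (h.1.symm.trans h'.1) (Prod.ext (h.2.1.symm.trans h'.2.1) (bool_ne h.2.2 h'.2.2))

theorem EP_unique : ∀ a b c : CP n L, EP a b → EP a c → b = c
  | .inl a, .inl b, .inl c, h, h' => congrArg Sum.inl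
    (Prod.ext (h.1.symm.trans h'.1) (Prod.ext (h.2.1.symm.trans h'.2.1) (bool_ne h.2.2 h'.2.2)))
  | .inl _, .inr _, _, h, _ => h.elim
  | .inl _, .inl _, .inr _, _, h' => h'.elim
  | .inr _, .inl _, _, h, _ => h.elim
  | .inr _, .inr _, _, h, _ => h.elim

/-- The assumptions on the numbers. -/
structure Dat (W L : ℕ) (α β γ : Fin n → ℕ) : Prop where
  hL : L + 1 = 4 * W
  ha : ∀ i, α i < W
  hb : ∀ i, β i < W
  hg : ∀ i, γ i < W
  hs : ∑ i, α i + ∑ i, β i = ∑ i, γ i

variable {W : ℕ} {α β γ : Fin n → ℕ}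

/-- The placement of the pattern. -/
def place (σ τ : Equiv.Perm (Fin n)) (p : Fin n → Fin (L + 1)) : CP n L → CH n L
  | .inl c => (c.1, (p c.1).succAbove c.2.1, c.2.2)
  | .inr c => bif c.2 then (τ.symm c.1, p (τ.symm c.1), true)
      else (σ.symm c.1, p (σ.symm c.1), false)

theorem card_eq : Fintype.card (CP n L) = Fintype.card (CH n L) := by
  simp only [Fintype.card_sum, Fintype.card_prod, Fintype.card_fin, Fintype.card_bool]
  ring

theorem place_inj (σ τ : Equiv.Perm (Fin n)) (p : Fin n → Fin (L + 1)) :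
    Function.Injective (place σ τ p) := by
  rintro (⟨g, a, s⟩ | ⟨i, s⟩) (⟨g', a', s'⟩ | ⟨i', s'⟩) h
  · simp only [place, Prod.mk.injEq] at h
    obtain ⟨rfl, h2, rfl⟩ := h
    rw [Fin.succAbove_right_injective h2]
  · exfalso
    cases s' <;> simp only [place, cond_true, cond_false, Prod.mk.injEq] at h
    · obtain ⟨rfl, h2, -⟩ := h
      exact Fin.succAbove_ne _ _ h2
    · obtain ⟨rfl, h2, -⟩ := h
      exact Fin.succAbove_ne _ _ h2
  · exfalso
    cases s <;> simp only [place, cond_true, cond_false, Prod.mk.injEq] at h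
    · obtain ⟨rfl, h2, -⟩ := h
      exact Fin.succAbove_ne _ _ h2.symm
    · obtain ⟨rfl, h2, -⟩ := h
      exact Fin.succAbove_ne _ _ h2.symm
  · cases s <;> cases s' <;> simp only [place, cond_true, cond_false, Prod.mk.injEq,
      reduceCtorEq, and_false, and_true] at h
    · rw [σ.symm.injective h.1]
    · rw [τ.symm.injective h.1]

theorem succAbove_le (p : Fin (L + 1)) (a : Fin L) :
    a.1 ≤ (p.succAbove a).1 ∧ (p.succAbove a).1 ≤ a.1 + 1 := by
  unfold Fin.succAbove
  split
  · exact ⟨le_refl _, by simp⟩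
  · exact ⟨by simp, le_refl _⟩

theorem Dat.exists_F (h : Dat W L α β γ) {σ τ : Equiv.Perm (Fin n)}
    (hst : ∀ g, α (σ g) + β (τ g) = γ g) :
    ∃ F : CP n L ≃ CH n L, (∀ c, lP W α β γ c ≤ lH W γ (F c)) ∧ ∀ c d, EP c d → EH (F c) (F d) := by
  have hL := h.hL
  let p : Fin n → Fin (L + 1) := fun g => ⟨2 * (α (σ g) + W) - 1, by
    have := h.ha (σ g); omega⟩
  refine ⟨Equiv.ofBijective (place σ τ p) ((Fintype.bijective_iff_injective_and_card _).2
    ⟨place_inj σ τ p, card_eq⟩), ?_, ?_⟩
  · rintro (⟨g, a, s⟩ | ⟨i, s⟩)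
    · have h1 := succAbove_le (p g) a
      cases s
      · show a.1 + 1 ≤ ((p g).succAbove a).1 + 1
        omega
      · show SS W γ g - (a.1 + 2) ≤ SS W γ g - (((p g).succAbove a).1 + 1)
        omega
    · cases s
      · show 2 * (α i + W) ≤ (2 * (α (σ (σ.symm i)) + W) - 1) + 1
        rw [Equiv.apply_symm_apply]
        omega
      · show 2 * (β i + 3 * W) ≤ SS W γ (τ.symm i) - ((2 * (α (σ (τ.symm i)) + W) - 1) + 1)
        have h1 := hst (τ.symm i)
        rw [Equiv.apply_symm_apply] at h1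
        have h2 := h.ha (σ (τ.symm i))
        unfold SS
        omega
  · rintro (⟨g, a, s⟩ | ⟨i, s⟩) (⟨g', a', s'⟩ | ⟨i', s'⟩) h1
    · obtain ⟨h2, h3, h4⟩ := h1
      simp only at h2 h3
      subst h2 h3
      exact ⟨rfl, rfl, h4⟩
    · exact h1.elim
    · exact h1.elim
    · exact h1.elim

/-! ### The converse -/

theorem sum_CH (f : CH n L → ℕ) : ∑ c, f c = ∑ g, ∑ a, (f (g, a, true) + f (g, a, false)) := by
  rw [Fintype.sum_prod_type]
  refine sum_congr rfl fun g _ => ?_
  rw [Fintype.sum_prod_type]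
  exact sum_congr rfl fun a _ => Fintype.sum_bool (fun s => f (g, a, s))

theorem sum_CP (f : CP n L → ℕ) : ∑ c, f c =
    ∑ g, ∑ a, (f (.inl (g, a, true)) + f (.inl (g, a, false))) +
      ∑ i, (f (.inr (i, true)) + f (.inr (i, false))) := by
  rw [Fintype.sum_sum_type]
  have e1 : ∑ c : Fin n × Fin L × Bool, f (.inl c) =
      ∑ g, ∑ a, (f (.inl (g, a, true)) + f (.inl (g, a, false))) := by
    rw [Fintype.sum_prod_type]
    refine sum_congr rfl fun g _ => ?_
    rw [Fintype.sum_prod_type]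
    exact sum_congr rfl fun a _ => Fintype.sum_bool (fun s => f (.inl (g, a, s)))
  have e2 : ∑ c : Fin n × Bool, f (.inr c) =
      ∑ i, (f (.inr (i, true)) + f (.inr (i, false))) := by
    rw [Fintype.sum_prod_type]
    exact sum_congr rfl fun a _ => Fintype.sum_bool (fun s => f (.inr (a, s)))
  rw [e1, e2]

section Conv

variable {F : CP n L ≃ CH n L}

/-- The two centres of a double star of the pattern are in one double star of the host. -/
theorem pair_host (hE : ∀ c d : CP n L, EP c d → EH (F c) (F d)) (g : Fin n) (a : Fin L) :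
    (F (.inl (g, a, true))).1 = (F (.inl (g, a, false))).1 ∧
    (F (.inl (g, a, true))).2.1 = (F (.inl (g, a, false))).2.1 ∧
    (F (.inl (g, a, true))).2.2 ≠ (F (.inl (g, a, false))).2.2 :=
  hE (.inl (g, a, true)) (.inl (g, a, false)) ⟨rfl, rfl, by simp⟩

theorem Dat.lH_pair (h : Dat W L α β γ) {c d : CH n L} (h1 : c.1 = d.1) (h2 : c.2.1 = d.2.1)
    (h3 : c.2.2 ≠ d.2.2) : lH W γ c + lH W γ d = SS W γ c.1 := by
  obtain ⟨g, a, s⟩ := c
  obtain ⟨g', a', s'⟩ := d
  simp only at h1 h2 h3
  subst h1 h2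
  have := a.2
  have := h.hL
  unfold lH SS
  cases s <;> cases s' <;> simp at h3 ⊢ <;> omega

theorem Dat.slack (h : Dat W L α β γ) (h1 : ∀ c, lP W α β γ c ≤ lH W γ (F c))
    (hE : ∀ c d : CP n L, EP c d → EH (F c) (F d)) :
    (∀ g a, SS W γ (F (.inl (g, a, true))).1 = SS W γ g) ∧
    ∀ i s, lH W γ (F (.inr (i, s))) = lP W α β γ (.inr (i, s) : CP n L) := by
  have hL := h.hL
  -- the total numbers of leaves
  have t1 : ∑ c : CP n L, lH W γ (F c) = ∑ g, ∑ _a : Fin (L + 1), SS W γ g := by
    rw [Fintype.sum_equiv F (fun c => lH W γ (F c)) (fun c => lH W γ c) fun _ => rfl, sum_CH]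
    refine sum_congr rfl fun g _ => sum_congr rfl fun a _ => ?_
    exact h.lH_pair (c := (g, a, true)) (d := (g, a, false)) rfl rfl (by simp)
  have t2 : ∑ i, (lP W α β γ (.inr (i, true) : CP n L) + lP W α β γ (.inr (i, false) : CP n L)) =
      ∑ g, SS W γ g := by
    have e1 : ∀ i, lP W α β γ (.inr (i, true) : CP n L) + lP W α β γ (.inr (i, false) : CP n L) =
        2 * (α i) + 2 * (β i) + 8 * W := by
      intro i
      simp only [lP, cond_true, cond_false]
      ring
    have e2 : ∀ i, SS W γ i = 2 * γ i + 8 * W := by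
      intro i
      unfold SS
      ring
    simp only [e1, e2, sum_add_distrib, ← mul_sum]
    have := h.hs
    omega
  -- every double star of the pattern has slack at least one
  have s1 : ∀ g a, lP W α β γ (.inl (g, a, true) : CP n L) + lP W α β γ (.inl (g, a, false) : CP n L)
      + 1 = SS W γ g := by
    intro g a
    have := a.2
    simp only [lP, cond_true, cond_false, SS]
    omega
  have s2 : ∀ g a, SS W γ g ≤ lH W γ (F (.inl (g, a, true))) + lH W γ (F (.inl (g, a, false))) := by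
    intro g a
    obtain ⟨p1, p2, p3⟩ := pair_host hE g a
    have e1 := h.lH_pair p1 p2 p3
    have e2 := h1 (.inl (g, a, true))
    have e3 := h1 (.inl (g, a, false))
    have e4 := s1 g a
    unfold SS at *
    omega
  rw [sum_CP] at t1
  have hle1 : ∀ g ∈ (univ : Finset (Fin n)), ∑ _a : Fin L, SS W γ g ≤
      ∑ a, (lH W γ (F (.inl (g, a, true))) + lH W γ (F (.inl (g, a, false)))) :=
    fun g _ => sum_le_sum fun a _ => s2 g a
  have hle2 : ∀ i ∈ (univ : Finset (Fin n)), lP W α β γ (.inr (i, true) : CP n L) +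
      lP W α β γ (.inr (i, false) : CP n L) ≤
      lH W γ (F (.inr (i, true))) + lH W γ (F (.inr (i, false))) :=
    fun i _ => add_le_add (h1 _) (h1 _)
  have t3 : ∑ g, ∑ _a : Fin (L + 1), SS W γ g = ∑ g, ∑ _a : Fin L, SS W γ g + ∑ g, SS W γ g := by
    rw [← sum_add_distrib]
    refine sum_congr rfl fun g _ => ?_
    simp only [sum_const, card_univ, Fintype.card_fin, smul_eq_mul]
    ring
  have hl1 := sum_le_sum hle1
  have hl2 := sum_le_sum hle2
  have q1 : ∑ g, ∑ _a : Fin L, SS W γ g =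
      ∑ g, ∑ a, (lH W γ (F (.inl (g, a, true))) + lH W γ (F (.inl (g, a, false)))) := by omega
  have q2 : ∑ i, (lP W α β γ (.inr (i, true) : CP n L) + lP W α β γ (.inr (i, false) : CP n L)) =
      ∑ i, (lH W γ (F (.inr (i, true))) + lH W γ (F (.inr (i, false)))) := by omega
  rw [sum_eq_sum_iff_of_le hle1] at q1
  rw [sum_eq_sum_iff_of_le hle2] at q2
  constructor
  · intro g a
    have e1 := q1 g (mem_univ _)
    rw [sum_eq_sum_iff_of_le fun a _ => s2 g a] at e1
    obtain ⟨p1, p2, p3⟩ := pair_host hE g a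
    rw [← h.lH_pair p1 p2 p3]
    exact (e1 a (mem_univ _)).symm
  · intro i s
    have e1 := q2 i (mem_univ _)
    have e2 := h1 (.inr (i, true))
    have e3 := h1 (.inr (i, false))
    cases s <;> omega

/-- The other centre of the host of a star of the pattern is used by a star. -/
theorem exists_partner (hE : ∀ c d : CP n L, EP c d → EH (F c) (F d)) (i : Fin n) (s : Bool) :
    ∃ j t, (F (.inr (j, t))).1 = (F (.inr (i, s))).1 ∧
      (F (.inr (j, t))).2.1 = (F (.inr (i, s))).2.1 ∧
      (F (.inr (j, t))).2.2 ≠ (F (.inr (i, s))).2.2 := by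
  obtain ⟨c, hc⟩ := F.surjective ((F (.inr (i, s))).1, (F (.inr (i, s))).2.1,
    !(F (.inr (i, s))).2.2)
  rcases c with ⟨g, a, t⟩ | ⟨j, t⟩
  · exfalso
    have h1 : EH (F (.inl (g, a, t))) (F (.inl (g, a, !t))) :=
      hE _ _ ⟨rfl, rfl, by cases t <;> simp⟩
    have h2 : EH (F (.inl (g, a, t))) (F (.inr (i, s))) := by
      rw [hc]
      exact ⟨rfl, rfl, by simp⟩
    have := F.injective (EH_unique _ _ _ h1 h2)
    simp at this
  · exact ⟨j, t, by rw [hc], by rw [hc], by rw [hc]; simp⟩

theorem Dat.partner (h : Dat W L α β γ) (h1 : ∀ c, lP W α β γ c ≤ lH W γ (F c))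
    (hE : ∀ c d : CP n L, EP c d → EH (F c) (F d)) (i : Fin n) :
    ∃ j, (F (.inr (j, true))).1 = (F (.inr (i, false))).1 ∧
      (F (.inr (j, true))).2.1 = (F (.inr (i, false))).2.1 ∧
      (F (.inr (j, true))).2.2 ≠ (F (.inr (i, false))).2.2 ∧
      α i + β j = γ (F (.inr (i, false))).1 := by
  obtain ⟨j, t, e1, e2, e3⟩ := exists_partner hE i false
  obtain ⟨-, hs⟩ := h.slack h1 hE
  have e4 := h.lH_pair e1 e2 e3
  rw [hs, hs, e1] at e4
  have a1 := h.ha i
  have a2 := h.hg (F (.inr (i, false))).1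
  cases t
  · exfalso
    have a3 := h.ha j
    simp only [lP, cond_false, SS] at e4
    omega
  · refine ⟨j, e1, e2, e3, ?_⟩
    simp only [lP, cond_false, cond_true, SS] at e4
    omega

theorem Dat.exists_perm (h : Dat W L α β γ) (h1 : ∀ c, lP W α β γ c ≤ lH W γ (F c))
    (hE : ∀ c d : CP n L, EP c d → EH (F c) (F d)) :
    ∃ σ τ : Equiv.Perm (Fin n), ∀ g, α (σ g) + β (τ g) = γ g := by
  classical
  choose ψ p1 p2 p3 p4 using h.partner h1 hE
  have ψinj : Function.Injective ψ := by
    intro i j hij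
    have e1 : EH (F (.inr (ψ i, true))) (F (.inr (i, false))) := ⟨p1 i, p2 i, p3 i⟩
    have e2 : EH (F (.inr (ψ j, true))) (F (.inr (j, false))) := ⟨p1 j, p2 j, p3 j⟩
    rw [hij] at e1
    have := F.injective (EH_unique _ _ _ e1 e2)
    simpa using this
  let Ψ : Equiv.Perm (Fin n) := Equiv.ofBijective ψ (Finite.injective_iff_bijective.1 ψinj)
  obtain ⟨hd, -⟩ := h.slack h1 hE
  have hd' : ∀ g a, γ (F (.inl (g, a, true))).1 = γ g := by
    intro g a
    have := hd g a
    unfold SS at this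
    omega
  -- the values of the free double stars
  have hcount : ∀ v, ∑ i, (if γ (F (.inr (i, false))).1 = v then 1 else 0) =
      ∑ g, (if γ g = v then 1 else 0) := by
    intro v
    have t1 : ∑ c : CP n L, (if γ (F c).1 = v then 1 else 0) =
        ∑ c : CH n L, (if γ c.1 = v then 1 else 0) :=
      Fintype.sum_equiv F _ _ fun _ => rfl
    rw [sum_CP, sum_CH] at t1
    have t2 : ∑ i, (if γ (F (.inr (i, true))).1 = v then 1 else 0) =
        ∑ i, (if γ (F (.inr (i, false))).1 = v then 1 else 0) := by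
      symm
      refine Fintype.sum_equiv Ψ _ _ fun i => ?_
      show (if γ (F (.inr (i, false))).1 = v then 1 else 0) =
        (if γ (F (.inr (ψ i, true))).1 = v then 1 else 0)
      rw [p1]
    have t3 : ∀ g : Fin n, ∑ a : Fin L, ((if γ (F (.inl (g, a, true))).1 = v then 1 else 0) +
        (if γ (F (.inl (g, a, false))).1 = v then 1 else 0)) =
        2 * (L * (if γ g = v then 1 else 0)) := by
      intro g
      have : ∀ a : Fin L, ((if γ (F (.inl (g, a, true))).1 = v then 1 else 0) +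
        (if γ (F (.inl (g, a, false))).1 = v then 1 else 0)) = 2 * (if γ g = v then 1 else 0) := by
        intro a
        rw [← (pair_host hE g a).1, hd']
        ring
      simp only [this, sum_const, card_univ, Fintype.card_fin, smul_eq_mul]
      ring
    have t4 : ∀ g : Fin n, ∑ _a : Fin (L + 1), ((if γ g = v then 1 else 0) +
        (if γ g = v then 1 else 0)) = 2 * (L * (if γ g = v then 1 else 0)) +
          2 * (if γ g = v then 1 else 0) := by
      intro g
      simp only [sum_const, card_univ, Fintype.card_fin, smul_eq_mul]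
      ring
    simp only [t3, t4, sum_add_distrib, ← mul_sum] at t1
    rw [t2] at t1
    omega
  have hmap : (univ : Finset (Fin n)).val.map (fun i => γ (F (.inr (i, false))).1) =
      (univ : Finset (Fin n)).val.map γ := by
    ext v
    rw [Multiset.count_map, Multiset.count_map]
    have := hcount v
    rw [← card_filter, ← card_filter] at this
    rw [Finset.card_def, Finset.card_def, filter_val, filter_val] at this
    simp only [eq_comm (a := v)]
    exact this
  obtain ⟨e, he⟩ := exists_equiv_of_map _ _ hmap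
  refine ⟨e.symm, e.symm.trans Ψ, fun g => ?_⟩
  have := p4 (e.symm g)
  have h2 := he (e.symm g)
  rw [Equiv.apply_symm_apply] at h2
  show α (e.symm g) + β (ψ (e.symm g)) = γ g
  rw [this]
  exact h2.symm

end Conv

/-- **The numerical equivalence.** -/
theorem Dat.main (h : Dat W L α β γ) :
    clg (lP W α β γ) (EP (n := n) (L := L)) EP_symm EP_irrefl ⊑
      clg (lH W γ) (EH (n := n) (L := L)) EH_symm EH_irrefl ↔
    ∃ σ τ : Equiv.Perm (Fin n), ∀ g, α (σ g) + β (τ g) = γ g := by
  rw [contained_iff card_eq]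
  · constructor
    · rintro ⟨F, h1, h2⟩
      exact h.exists_perm h1 h2
    · rintro ⟨σ, τ, hst⟩
      exact h.exists_F hst
  · have hL := h.hL
    rintro (⟨g, a, s⟩ | ⟨i, s⟩)
    · right
      refine ⟨?_, .inl (g, a, !s), rfl, rfl, by cases s <;> simp⟩
      have := a.2
      cases s <;> simp only [lP, cond_true, cond_false, SS] <;> omega
    · left
      cases s <;> simp only [lP, cond_true, cond_false] <;> omega

end Pool.Agent.R892.P5
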