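import Pool.Agent.R892.P5.Enc
import Pool.Agent.R892.P5.Defs
import Pool.Agent.R892.Ord.Mem

/-!
# Subgraph isomorphism: the reduction is computable in polynomial time
-/

set_option autoImplicit false
set_option linter.unusedSectionVars false

namespace Pool.Agent.R892.P5

theorem flatMap_congr' {A B : Type} {l : List A} {f g : A → List B} (h : ∀ a ∈ l, f a = g a) :
    l.flatMap f = l.flatMap g := by
  induction l with
  | nil => rfl
  | cons a l ih =>
    rw [List.flatMap_cons, List.flatMap_cons, h a (List.mem_cons_self ..),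
      ih fun b hb => h b (List.mem_cons_of_mem _ hb)]

/-- The vertices of the host, truncated. -/
def vH' (T : List (ℕ × ℕ × ℕ)) (U : ℕ) : List Lab :=
  (List.range T.length).flatMap fun g => (List.range (4 * U + 4)).flatMap fun a =>
    bl.flatMap fun s => (List.range (min (lh T U g a s) (10 * U + 8) + 1)).map
      fun i => (0, g, a, s, i)

/-- The vertices of the pattern, truncated. -/
def vP' (T : List (ℕ × ℕ × ℕ)) (U : ℕ) : List Lab :=
  ((List.range T.length).flatMap fun g => (List.range (4 * U + 3)).flatMap fun a =>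
    bl.flatMap fun s => (List.range (min (lp T U g a s) (10 * U + 8) + 1)).map
      fun i => (0, g, a, s, i)) ++
  ((List.range T.length).flatMap fun j =>
    bl.flatMap fun s => (List.range (min (lq T U j s) (10 * U + 8) + 1)).map
      fun i => (1, j, 0, s, i))

theorem vH_eq {T : List (ℕ × ℕ × ℕ)} {U : ℕ}
    (h : ∀ g, nA T g ≤ U ∧ nB T g ≤ U ∧ nC T g ≤ U) : vH T U = vH' T U := by
  unfold vH vH'
  refine flatMap_congr' fun g _ => flatMap_congr' fun a ha => flatMap_congr' fun s _ => ?_
  rw [min_eq_left]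
  have := (h g).2.2
  have := List.mem_range.1 ha
  unfold lh
  cases s <;> simp <;> omega

theorem vP_eq {T : List (ℕ × ℕ × ℕ)} {U : ℕ}
    (h : ∀ g, nA T g ≤ U ∧ nB T g ≤ U ∧ nC T g ≤ U) : vP T U = vP' T U := by
  unfold vP vP'
  congr 1
  · refine flatMap_congr' fun g _ => flatMap_congr' fun a ha => flatMap_congr' fun s _ => ?_
    rw [min_eq_left]
    have := (h g).2.2
    have := List.mem_range.1 ha
    unfold lp
    cases s <;> simp <;> omega
  · refine flatMap_congr' fun g _ => flatMap_congr' fun s _ => ?_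
    rw [min_eq_left]
    have := (h g).2.1
    have := (h g).1
    unfold lq
    cases s <;> simp <;> omega

theorem tr_le (I : List (ℕ × ℕ × ℕ) × List Unit) (g : ℕ) :
    nA (tr I) g ≤ I.2.length ∧ nB (tr I) g ≤ I.2.length ∧ nC (tr I) g ≤ I.2.length := by
  by_cases hg : g < (tr I).length
  · have h := List.getElem_mem hg
    have e : (tr I).getD g (0, 0, 0) = (tr I)[g] := List.getD_eq_getElem _ _ hg
    unfold nA nB nC
    rw [e]
    unfold tr at h ⊢
    obtain ⟨t, -, ht⟩ := List.mem_map.1 h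
    rw [← ht]
    exact ⟨min_le_right _ _, min_le_right _ _, min_le_right _ _⟩
  · have e : (tr I).getD g (0, 0, 0) = (0, 0, 0) := List.getD_eq_default _ _ (by omega)
    unfold nA nB nC
    rw [e]
    exact ⟨Nat.zero_le _, Nat.zero_le _, Nat.zero_le _⟩

end Pool.Agent.R892.P5

namespace Pool.Agent.NPC.R892

open Pool.Agent.R892 Pool.Agent.R892.P5 Pool.Agent.NPC.R671

variable {α : Type} [TEnc α]

theorem poly_tr : Poly tr := by
  unfold tr
  fun_prop

theorem poly_eqs : Poly eqs := by
  unfold eqs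
  fun_prop

theorem poly_nA {T : α → List (ℕ × ℕ × ℕ)} {g : α → ℕ} (hT : Poly T) (hg : Poly g) :
    Poly (fun a => nA (T a) (g a)) := by
  unfold nA; fun_prop

theorem poly_nB {T : α → List (ℕ × ℕ × ℕ)} {g : α → ℕ} (hT : Poly T) (hg : Poly g) :
    Poly (fun a => nB (T a) (g a)) := by
  unfold nB; fun_prop

theorem poly_nC {T : α → List (ℕ × ℕ × ℕ)} {g : α → ℕ} (hT : Poly T) (hg : Poly g) :
    Poly (fun a => nC (T a) (g a)) := by
  unfold nC; fun_prop

theorem poly_inner {f : α → Bool → ℕ} {κ g a : α → ℕ} {B : α → ℕ} (hB : UPoly B)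
    (hf : Poly (fun p : α × Bool => f p.1 p.2)) (hκ : Poly κ) (hg : Poly g) (ha : Poly a) :
    Poly (fun x => bl.flatMap fun s => (List.range (min (f x s) (B x) + 1)).map
      fun i => ((κ x, g x, a x, s, i) : Lab)) := by
  refine Poly.flatMap (F := fun x s => (List.range (min (f x s) (B x) + 1)).map
      fun i => ((κ x, g x, a x, s, i) : Lab)) (Poly.const _) ?_
  have hB' : UPoly (fun p : α × Bool => B p.1) := hB.comp (Poly.fst Poly.id)
  have h1 : UPoly (fun p : α × Bool => min (f p.1 p.2) (B p.1)) :=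
    UPoly.of_le (Poly.min hf hB'.toPoly) hB' fun _ => min_le_right _ _
  refine Poly.map (F := fun (p : α × Bool) i => ((κ p.1, g p.1, a p.1, p.2, i) : Lab))
    (Poly.range_uPoly (h1.add (UPoly.const 1))) ?_
  have k1 : Poly (fun p : (α × Bool) × ℕ => κ p.1.1) := hκ.comp (Poly.fst (Poly.fst Poly.id))
  have k2 : Poly (fun p : (α × Bool) × ℕ => g p.1.1) := hg.comp (Poly.fst (Poly.fst Poly.id))
  have k3 : Poly (fun p : (α × Bool) × ℕ => a p.1.1) := ha.comp (Poly.fst (Poly.fst Poly.id))
  fun_prop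

theorem poly_vH' {T : α → List (ℕ × ℕ × ℕ)} {U : α → ℕ} (hT : Poly T) (hU : UPoly U) :
    Poly (fun x => vH' (T x) (U x)) := by
  unfold vH'
  refine Poly.flatMap (F := fun x g => (List.range (4 * U x + 4)).flatMap fun a =>
    bl.flatMap fun s => (List.range (min (lh (T x) (U x) g a s) (10 * U x + 8) + 1)).map
      fun i => (0, g, a, s, i)) (Poly.range_uPoly (UPoly.length hT)) ?_
  have hU1 : UPoly (fun p : α × ℕ => U p.1) := hU.comp (Poly.fst Poly.id)
  refine Poly.flatMap (F := fun (p : α × ℕ) a =>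
    bl.flatMap fun s => (List.range (min (lh (T p.1) (U p.1) p.2 a s) (10 * U p.1 + 8) + 1)).map
      fun i => (0, p.2, a, s, i))
      (Poly.range_uPoly (((UPoly.const 4).mul hU1).add (UPoly.const 4))) ?_
  have hU2 : UPoly (fun p : (α × ℕ) × ℕ => U p.1.1) := hU.comp (Poly.fst (Poly.fst Poly.id))
  refine poly_inner (f := fun (p : (α × ℕ) × ℕ) s => lh (T p.1.1) (U p.1.1) p.1.2 p.2 s)
    (κ := fun _ => 0) (g := fun p => p.1.2) (a := fun p => p.2)
    (((UPoly.const 10).mul hU2).add (UPoly.const 8)) ?_ (Poly.const _) (by fun_prop) (by fun_prop)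
  have h1 : Poly (fun p : ((α × ℕ) × ℕ) × Bool => nC (T p.1.1.1) p.1.1.2) :=
    poly_nC (hT.comp (by fun_prop)) (by fun_prop)
  have h2 : Poly (fun p : ((α × ℕ) × ℕ) × Bool => U p.1.1.1) :=
    hU.toPoly.comp (by fun_prop)
  have h3 : Poly (fun p : ((α × ℕ) × ℕ) × Bool => p.1.2) := by fun_prop
  unfold lh
  exact Poly.cond (by fun_prop) (Poly.sub (Poly.mul (Poly.const 2) (Poly.add h1
    (Poly.mul (Poly.const 4) (Poly.add h2 (Poly.const 1))))) (Poly.add h3 (Poly.const 1)))
    (Poly.add h3 (Poly.const 1))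

theorem poly_vP' {T : α → List (ℕ × ℕ × ℕ)} {U : α → ℕ} (hT : Poly T) (hU : UPoly U) :
    Poly (fun x => vP' (T x) (U x)) := by
  unfold vP'
  have hU1 : UPoly (fun p : α × ℕ => U p.1) := hU.comp (Poly.fst Poly.id)
  refine Poly.append ?_ ?_
  · refine Poly.flatMap (F := fun x g => (List.range (4 * U x + 3)).flatMap fun a =>
      bl.flatMap fun s => (List.range (min (P5.lp (T x) (U x) g a s) (10 * U x + 8) + 1)).map
        fun i => (0, g, a, s, i)) (Poly.range_uPoly (UPoly.length hT)) ?_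
    refine Poly.flatMap (F := fun (p : α × ℕ) a =>
      bl.flatMap fun s => (List.range (min (P5.lp (T p.1) (U p.1) p.2 a s) (10 * U p.1 + 8) + 1)).map
        fun i => (0, p.2, a, s, i))
        (Poly.range_uPoly (((UPoly.const 4).mul hU1).add (UPoly.const 3))) ?_
    have hU2 : UPoly (fun p : (α × ℕ) × ℕ => U p.1.1) := hU.comp (Poly.fst (Poly.fst Poly.id))
    refine poly_inner (f := fun (p : (α × ℕ) × ℕ) s => P5.lp (T p.1.1) (U p.1.1) p.1.2 p.2 s)
      (κ := fun _ => 0) (g := fun p => p.1.2) (a := fun p => p.2)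
      (((UPoly.const 10).mul hU2).add (UPoly.const 8)) ?_ (Poly.const _) (by fun_prop)
      (by fun_prop)
    have h1 : Poly (fun p : ((α × ℕ) × ℕ) × Bool => nC (T p.1.1.1) p.1.1.2) :=
      poly_nC (hT.comp (by fun_prop)) (by fun_prop)
    have h2 : Poly (fun p : ((α × ℕ) × ℕ) × Bool => U p.1.1.1) :=
      hU.toPoly.comp (by fun_prop)
    have h3 : Poly (fun p : ((α × ℕ) × ℕ) × Bool => p.1.2) := by fun_prop
    unfold P5.lp
    exact Poly.cond (by fun_prop) (Poly.sub (Poly.mul (Poly.const 2) (Poly.add h1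
      (Poly.mul (Poly.const 4) (Poly.add h2 (Poly.const 1))))) (Poly.add h3 (Poly.const 2)))
      (Poly.add h3 (Poly.const 1))
  · refine Poly.flatMap (F := fun x j =>
      bl.flatMap fun s => (List.range (min (lq (T x) (U x) j s) (10 * U x + 8) + 1)).map
        fun i => (1, j, 0, s, i)) (Poly.range_uPoly (UPoly.length hT)) ?_
    refine poly_inner (f := fun (p : α × ℕ) s => lq (T p.1) (U p.1) p.2 s)
      (κ := fun _ => 1) (g := fun p => p.2) (a := fun _ => 0)
      (((UPoly.const 10).mul hU1).add (UPoly.const 8)) ?_ (Poly.const _) (by fun_prop)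
      (Poly.const _)
    have h1 : Poly (fun p : (α × ℕ) × Bool => nA (T p.1.1) p.1.2) :=
      poly_nA (hT.comp (by fun_prop)) (by fun_prop)
    have h3 : Poly (fun p : (α × ℕ) × Bool => nB (T p.1.1) p.1.2) :=
      poly_nB (hT.comp (by fun_prop)) (by fun_prop)
    have h2 : Poly (fun p : (α × ℕ) × Bool => U p.1.1) :=
      hU.toPoly.comp (by fun_prop)
    unfold lq
    exact Poly.cond (by fun_prop) (Poly.mul (Poly.const 2) (Poly.add h3 (Poly.mul (Poly.const 3)
      (Poly.add h2 (Poly.const 1))))) (Poly.mul (Poly.const 2) (Poly.add h1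
        (Poly.add h2 (Poly.const 1))))

theorem poly_matrix {v : α → List P5.Lab} (hv : Poly v) :
    Poly (fun x => (v x).map fun u => (v x).map fun w => P5.ad u w) := by
  have h1 : Poly (fun p : (α × P5.Lab) × P5.Lab => P5.ad p.1.2 p.2) := by
    unfold P5.ad
    fun_prop
  have h2 : Poly (fun p : α × P5.Lab => (v p.1).map fun w => P5.ad p.2 w) :=
    Poly.map (l := fun p : α × P5.Lab => v p.1) (F := fun (p : α × P5.Lab) w => P5.ad p.2 w)
      (hv.comp (Poly.fst Poly.id)) h1
  exact Poly.map (l := v) (F := fun x u => (v x).map fun w => P5.ad u w) hv h2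

theorem poly_red : Poly red := by
  have hU : UPoly (fun I : List (ℕ × ℕ × ℕ) × List Unit => I.2.length) :=
    UPoly.length (Poly.snd Poly.id)
  have h1 := poly_matrix (poly_vH' poly_tr hU)
  have h2 := poly_matrix (poly_vP' poly_tr hU)
  have h3 : Poly (fun I : List (ℕ × ℕ × ℕ) × List Unit => mH (tr I) I.2.length) :=
    h1.congr fun I => by
      unfold mH
      rw [vH_eq (tr_le I)]
  have h4 : Poly (fun I : List (ℕ × ℕ × ℕ) × List Unit => mP (tr I) I.2.length) :=
    h2.congr fun I => by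
      unfold mP
      rw [vP_eq (tr_le I)]
  unfold red
  exact Poly.cond (poly_eqs.comp poly_tr) (Poly.pair h3 h4) (Poly.const _)

end Pool.Agent.NPC.R892
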